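import Pool.Agent.Work.MP_db9399_oc_helper68.RSV

/-!
# MP_db9399: IDX5, possible slots in other clusters as neighbours of pieces of type K (helper68)
-/

set_option autoImplicit false

namespace Pool.Agent.Work.MP_db9399_oc.helper68

open Finset Classical
open Pool.Agent.Work.MP_db9399_all (nb)
open Pool.Agent.Work.MP_db9399_lt (us)
open Pool.Agent.Work.MP_db9399_da hiding qV
open Pool.Agent.Work.MP_db9399_xf
open Pool.Agent.Work.MP_db9399_x4
open Pool.Agent.Work.MP_db9399_oc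

universe u

/-! ## Numbers -/

theorem idx5_aux (x y l m A : ℝ) (hx : 0 < x) (hy : 0 < y) (hy1 : y ≤ 1 / 100) (hl : 0 ≤ l)
    (pl : y * l ≤ 1 / 100) (hm0 : 0 < m) (hm3 : x * y ^ 4 / 2 ≤ m) (hA : 0 ≤ A)
    (hX : A * y ^ 2 ≤ 2) :
    (1 + 1 / 200) * (A * (y ^ 8 * x ^ 2) / m) +
      ((1 + 1 / 200) * (y ^ 8 * x ^ 2 / m) + y ^ 8 * x * l) * l ≤ x * y := by
  have q1 : y ^ 8 * x ^ 2 / m ≤ 2 * y ^ 4 * x := by
    rw [div_le_iff₀ hm0]
    calc y ^ 8 * x ^ 2 = 2 * y ^ 4 * x * (x * y ^ 4 / 2) := by ring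
      _ ≤ 2 * y ^ 4 * x * m := by gcongr
  have q2 : A * (y ^ 8 * x ^ 2) / m ≤ 4 * y ^ 2 * x := by
    calc A * (y ^ 8 * x ^ 2) / m = A * (y ^ 8 * x ^ 2 / m) := by ring
      _ ≤ A * (2 * y ^ 4 * x) := by gcongr
      _ = A * y ^ 2 * (2 * y ^ 2 * x) := by ring
      _ ≤ 2 * (2 * y ^ 2 * x) := by gcongr
      _ = _ := by ring
  have hy1' : y ≤ 1 := by linarith
  have r1 : y ^ 2 ≤ 1 := pow_le_one₀ hy.le hy1'
  have r2 : y ^ 5 ≤ 1 := pow_le_one₀ hy.le hy1'
  have hyl : 0 ≤ y * l := by positivity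
  calc (1 + 1 / 200) * (A * (y ^ 8 * x ^ 2) / m) +
        ((1 + 1 / 200) * (y ^ 8 * x ^ 2 / m) + y ^ 8 * x * l) * l ≤
        (1 + 1 / 200) * (4 * y ^ 2 * x) + ((1 + 1 / 200) * (2 * y ^ 4 * x) + y ^ 8 * x * l) * l := by
          gcongr
    _ = x * y * ((1 + 1 / 200) * 4 * y + (1 + 1 / 200) * 2 * y ^ 2 * (y * l) +
          y ^ 5 * (y * l) ^ 2) := by ring
    _ ≤ x * y * ((1 + 1 / 200) * 4 * (1 / 100) + (1 + 1 / 200) * 2 * 1 * (1 / 100) +
          1 * (1 / 100) ^ 2) := by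
        gcongr
    _ ≤ x * y * 1 := by
        gcongr
        norm_num
    _ = x * y := mul_one _

theorem idx5_num (C c' : ℝ) (B0 : ℕ) (hc : 0 < c') (hc2 : c' ≤ 1 / 2) :
    ∃ d0 : ℕ, ∀ d : ℕ, d0 ≤ d → 10 ≤ d ∧ C ≤ d ∧ ⌊(d : ℝ) ^ (c' / 4)⌋₊ + B0 ≤ d ∧
      1 ≤ ⌊(d : ℝ) ^ (1 - c' / 2)⌋₊ ∧ ⌊(d : ℝ) ^ (1 - c' / 2)⌋₊ ≤ d ∧
      (1 + 1 / 200) * (((⌊(d : ℝ) ^ (c' / 4)⌋₊ + B0 : ℕ) : ℝ) * ((d : ℝ) ^ (-c') * (d : ℝ) ^ 2) /
        ⌊(d : ℝ) ^ (1 - c' / 2)⌋₊) +
        ((1 + 1 / 200) * ((d : ℝ) ^ (-c') * (d : ℝ) ^ 2 / ⌊(d : ℝ) ^ (1 - c' / 2)⌋₊) +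
          (d : ℝ) ^ (-c') * d * (Real.log d) ^ 2) * (Real.log d) ^ 2 ≤
        (d : ℝ) ^ (1 - c' / 8) := by
  have hc8 : 0 < c' / 8 := by positivity
  have h1 : Filter.Tendsto (fun x : ℝ => x ^ (-(c' / 8))) Filter.atTop (nhds 0) :=
    tendsto_rpow_neg_atTop hc8
  have h2 : Filter.Tendsto (fun x : ℝ => (Real.log x) ^ (2 : ℝ) / x ^ (c' / 8)) Filter.atTop
      (nhds 0) := (isLittleO_log_rpow_rpow_atTop 2 hc8).tendsto_div_nhds_zero
  have e1 : ∀ᶠ x : ℝ in Filter.atTop, x ^ (-(c' / 8)) < min (1 / 100) (1 / (100 * ((B0 : ℝ) + 1))) :=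
    h1.eventually (gt_mem_nhds (by positivity))
  have e2 : ∀ᶠ x : ℝ in Filter.atTop, (Real.log x) ^ (2 : ℝ) / x ^ (c' / 8) < 1 / 100 :=
    h2.eventually (gt_mem_nhds (by positivity))
  have e3 := (e1.and (e2.and (Filter.eventually_ge_atTop (max 10 C))))
  obtain ⟨d0, hd0⟩ := Filter.eventually_atTop.1 (tendsto_natCast_atTop_atTop.eventually e3)
  refine ⟨d0, fun d hd => ?_⟩
  obtain ⟨a1, a2, a3⟩ := hd0 d hd
  have hd10 : (10 : ℝ) ≤ d := (le_max_left _ _).trans a3
  have hdC : C ≤ d := (le_max_right _ _).trans a3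
  have hd1 : 10 ≤ d := by exact_mod_cast hd10
  have hx : (0 : ℝ) < (d : ℝ) := by linarith
  have hx1 : (1 : ℝ) ≤ (d : ℝ) := by linarith
  set x : ℝ := (d : ℝ) with hxd
  set y := x ^ (-(c' / 8)) with hyd
  have hy : 0 < y := Real.rpow_pos_of_pos hx _
  have hy1 : y ≤ 1 / 100 := (lt_min_iff.1 a1).1.le
  have hy2 : y ≤ 1 / (100 * ((B0 : ℝ) + 1)) := (lt_min_iff.1 a1).2.le
  have pw : ∀ n : ℕ, x ^ (-(n * (c' / 8))) = y ^ n := by
    intro n
    rw [hyd, ← Real.rpow_natCast, ← Real.rpow_mul hx.le]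
    congr 1
    ring
  have p8 : x ^ (-c') = y ^ 8 := by
    rw [← pw 8]; congr 1; push_cast; ring
  have p4 : x ^ (1 - c' / 2) = x * y ^ 4 := by
    rw [← pw 4, show (1 - c' / 2 : ℝ) = 1 + -(((4 : ℕ) : ℝ) * (c' / 8)) by push_cast; ring,
      Real.rpow_add hx, Real.rpow_one]
  have p1 : x ^ (1 - c' / 8) = x * y := by
    rw [sub_eq_add_neg, Real.rpow_add hx, Real.rpow_one]
  have p2 : x ^ (c' / 4) * y ^ 2 = 1 := by
    rw [← pw 2, ← Real.rpow_add hx]
    rw [show (c' / 4 + -(((2 : ℕ) : ℝ) * (c' / 8)) : ℝ) = 0 by push_cast; ring, Real.rpow_zero]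
  have pl : y * (Real.log x) ^ 2 ≤ 1 / 100 := by
    have : (Real.log x) ^ (2 : ℝ) / x ^ (c' / 8) = y * (Real.log x) ^ 2 := by
      rw [hyd, Real.rpow_neg hx.le, div_eq_mul_inv, mul_comm]
      congr 1
      exact_mod_cast Real.rpow_natCast (Real.log x) 2
    rw [← this]
    exact a2.le
  have py8 : 1 ≤ x * y ^ 8 := by
    rw [← p8]
    have : x * x ^ (-c') = x ^ (1 - c') := by
      rw [sub_eq_add_neg, Real.rpow_add hx, Real.rpow_one]
    rw [this]
    exact Real.one_le_rpow hx1 (by linarith)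
  have hy1' : y ≤ 1 := by linarith
  have pt : 1 ≤ x * y ^ 4 := by
    have : y ^ 8 ≤ y ^ 4 := pow_le_pow_of_le_one hy.le hy1' (by norm_num)
    nlinarith
  -- the number of blocks
  set m := ⌊x ^ (1 - c' / 2)⌋₊ with hm
  have hm1 : 1 ≤ m := by
    rw [hm, p4]
    exact Nat.le_floor (by exact_mod_cast pt)
  have hm2 : (m : ℝ) ≤ x * y ^ 4 := by
    rw [hm, p4]
    exact Nat.floor_le (by positivity)
  have hm3 : x * y ^ 4 / 2 ≤ (m : ℝ) := by
    have h3 : x * y ^ 4 < (m : ℝ) + 1 := by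
      rw [hm, p4]
      exact Nat.lt_floor_add_one _
    have h4 : (1 : ℝ) ≤ m := by exact_mod_cast hm1
    linarith
  have hm4 : m ≤ d := by
    have : (m : ℝ) ≤ x := by
      have : y ^ 4 ≤ 1 := pow_le_one₀ hy.le hy1'
      nlinarith
    rw [hxd] at this
    exact_mod_cast this
  -- the number of slots
  have hyB : ((B0 : ℝ) + 1) * y ≤ 1 / 100 := by
    calc ((B0 : ℝ) + 1) * y ≤ ((B0 : ℝ) + 1) * (1 / (100 * ((B0 : ℝ) + 1))) := by gcongr
      _ = 1 / 100 := by field_simp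
  have hX : (((⌊x ^ (c' / 4)⌋₊ + B0 : ℕ)) : ℝ) * y ^ 2 ≤ 2 := by
    push_cast
    have h5 : ((⌊x ^ (c' / 4)⌋₊ : ℕ) : ℝ) ≤ x ^ (c' / 4) := Nat.floor_le (by positivity)
    have h6 : ((⌊x ^ (c' / 4)⌋₊ : ℕ) : ℝ) * y ^ 2 ≤ 1 := by
      rw [← p2]; gcongr
    have h7 : (B0 : ℝ) * y ^ 2 ≤ 1 := by nlinarith
    linarith
  have hXd : ⌊x ^ (c' / 4)⌋₊ + B0 ≤ d := by
    have h8 : (((⌊x ^ (c' / 4)⌋₊ + B0 : ℕ)) : ℝ) ≤ x := by
      have h9 : 2 ≤ x * y ^ 2 := by
        have : 2 * y ^ 8 ≤ y ^ 2 := by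
          have : y ^ 8 = y ^ 2 * y ^ 6 := by ring
          have h10 : y ^ 6 ≤ 1 / 2 := by
            have : y ^ 6 ≤ y ^ 1 := pow_le_pow_of_le_one hy.le hy1' (by norm_num)
            rw [pow_one] at this
            linarith
          nlinarith [pow_pos hy 2]
        nlinarith
      have h10 : (((⌊x ^ (c' / 4)⌋₊ + B0 : ℕ)) : ℝ) * y ^ 2 ≤ x * y ^ 2 := hX.trans h9
      exact le_of_mul_le_mul_right h10 (by positivity)
    rw [hxd] at h8
    exact_mod_cast h8
  refine ⟨hd1, hdC, hXd, hm1, hm4, ?_⟩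
  rw [p8, p1]
  have hm0 : (0 : ℝ) < m := by exact_mod_cast hm1
  exact idx5_aux x y ((Real.log x) ^ 2) m _ hx hy hy1 (by positivity) pl hm0 hm3 (by positivity) hX

/-! ## Counting -/

section count
variable {V : Type u} [Fintype V] {N J : ℕ}

/-- quarter of a vertex -/
def qt (D : OD V N J) (w : V) : Fin N × Bool × Bool := (D.X.P.pc w, D.X.P.sd w, D.X.P.pt w)

/-- vertices of type B in other clusters with a neighbour in the piece `n` of type K -/
noncomputable def KW (D : OD V N J) (n : Fin N) : Finset V :=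
  univ.filter (fun w => D.X.P.ty n = Ty.K ∧ InT D.X Ty.B w ∧
    (∀ v ∈ pV D.X.P n, D.X.cq v ≠ D.X.cq w) ∧ (nb D.G w ∩ pV D.X.P n).Nonempty)

/-- those in a quarter -/
noncomputable def K4 (D : OD V N J) (n : Fin N) (r : Fin N × Bool × Bool) : Finset V :=
  (KW D n).filter (fun w => qt D w = r)

/-- number of neighbours in the piece `n` -/
noncomputable def Kg (D : OD V N J) (n : Fin N) (w : V) : ℕ := (nb D.G w ∩ pV D.X.P n).card

/-- number of edges between `n` and a block -/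
noncomputable def KE (D : OD V N J) (x : D.IV → ℕ) (n : Fin N) (r : Fin N × Bool × Bool)
    (j : ℕ) : ℕ :=
  ∑ w ∈ (K4 D n r).filter (fun w => D.tauX x w = j), Kg D n w

/-- variables of slots -/
abbrev KS (D : OD V N J) : Type := Fin N × Bool × Bool × Fin (D.d + 2) × Fin D.Bq

/-- active slots -/
noncomputable def SA (D : OD V N J) (n : Fin N) (b : ℕ) : Finset (KS D) :=
  univ.filter (fun s => (s.2.2.2.1 : ℕ) = b ∧ (K4 D n (s.1, s.2.1, s.2.2.1)).Nonempty)

theorem KW_sub (D : OD V N J) (n : Fin N) :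
    KW D n ⊆ (pV D.X.P n).biUnion (fun v => nb D.G v) := by
  intro w hw
  obtain ⟨-, -, -, -, v, hv⟩ := mem_filter.1 hw
  rw [mem_inter] at hv
  refine mem_biUnion.2 ⟨v, hv.2, ?_⟩
  simp only [nb, mem_filter, mem_univ, true_and] at hv ⊢
  exact hv.1.symm

theorem KW_card (k : Con) (c' : ℝ) (D : OD V N J) (hD : Hyp k c' D) (n : Fin N) :
    (KW D n).card ≤ 2 * D.d * D.d := by
  by_cases hn : D.X.P.ty n = Ty.K
  · have h1 : ((pV D.X.P n).card : ℝ) ≤ 2 * D.d := by
      have := hD.pc.kU n hn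
      have h2 := hD.θk1
      nlinarith [(Nat.cast_nonneg D.d : (0 : ℝ) ≤ D.d)]
    have h2 : (pV D.X.P n).card ≤ 2 * D.d := by exact_mod_cast h1
    refine (Finset.card_le_card (KW_sub D n)).trans (Finset.card_biUnion_le.trans ?_)
    calc ∑ y ∈ pV D.X.P n, (nb D.G y).card = ∑ _y ∈ pV D.X.P n, D.d :=
          Finset.sum_congr rfl fun y _ => hD.pc.reg y
      _ = (pV D.X.P n).card * D.d := by rw [Finset.sum_const, smul_eq_mul]
      _ ≤ 2 * D.d * D.d := Nat.mul_le_mul_right _ h2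
  · have : KW D n = ∅ := by
      rw [Finset.eq_empty_iff_forall_notMem]
      intro w hw
      exact hn (mem_filter.1 hw).2.1
    rw [this]
    simp

theorem Kg_le (k : Con) (c' : ℝ) (D : OD V N J) (hD : Hyp k c' D) (n : Fin N) {w : V}
    (hw : w ∈ KW D n) : (Kg D n w : ℝ) ≤ (D.d : ℝ) ^ (-c') * D.d := by
  obtain ⟨-, -, hB, hcq, -⟩ := mem_filter.1 hw
  have hH : w ∉ D.X.Hv := by
    intro h
    have h1 := (hD.hv w h).2
    have h2 := hB.2
    rw [h1] at h2
    exact absurd h2 (by decide)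
  refine le_trans ?_ (hD.pc.out w hB.1 hH)
  have : nb D.G w ∩ pV D.X.P n ⊆ (nb D.G w).filter (fun v => D.X.cq v ≠ D.X.cq w) := by
    intro v hv
    rw [mem_inter] at hv
    exact mem_filter.2 ⟨hv.1, hcq v hv.2⟩
  exact_mod_cast Finset.card_le_card this

theorem Kg_sum (k : Con) (c' : ℝ) (D : OD V N J) (hD : Hyp k c' D) (n : Fin N) :
    ((∑ w ∈ KW D n, Kg D n w : ℕ) : ℝ) ≤ (D.d : ℝ) ^ (-c') * (D.d : ℝ) ^ 2 := by
  refine le_trans ?_ (hD.pc.xs n)
  have h1 : ∑ w ∈ KW D n, Kg D n w ≤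
      ∑ v ∈ pV D.X.P n, ((nb D.G v).filter (fun w => D.X.cq w ≠ D.X.cq v)).card := by
    unfold Kg
    rw [rsv_dc]
    refine Finset.sum_le_sum fun v hv => Finset.card_le_card ?_
    intro w hw
    rw [mem_inter] at hw
    exact mem_filter.2 ⟨hw.1, fun e => (mem_filter.1 hw.2).2.2.2.1 v hv e.symm⟩
  exact_mod_cast h1

theorem K4_sum (D : OD V N J) (n : Fin N) (g : V → ℕ) :
    ∑ r, ∑ w ∈ K4 D n r, g w = ∑ w ∈ KW D n, g w := by
  unfold K4
  exact Finset.sum_fiberwise _ _ _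

theorem KE_sum (D : OD V N J) (x : D.IV → ℕ) (n : Fin N) (r : Fin N × Bool × Bool) (m : ℕ) :
    ∑ a ∈ range m, KE D x n r a ≤ ∑ w ∈ K4 D n r, Kg D n w := by
  unfold KE
  exact Finset.sum_fiberwise_le_sum_of_sum_fiber_nonneg (fun _ _ => Nat.zero_le _)

/-- active slots of a quarter -/
theorem SA_fib (D : OD V N J) (n : Fin N) (b : ℕ) (r : Fin N × Bool × Bool) :
    ((SA D n b).filter (fun s => (s.1, s.2.1, s.2.2.1) = r)).card ≤ D.Bq := by
  have : ((SA D n b).filter (fun s => (s.1, s.2.1, s.2.2.1) = r)).card ≤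
      (univ : Finset (Fin D.Bq)).card := by
    refine Finset.card_le_card_of_injOn (fun s => s.2.2.2.2) (fun _ _ => mem_coe.2 (mem_univ _)) ?_
    intro s hs s' hs' h
    obtain ⟨h1, h2⟩ := mem_filter.1 (mem_coe.1 hs)
    obtain ⟨h1', h2'⟩ := mem_filter.1 (mem_coe.1 hs')
    have e1 := (mem_filter.1 h1).2.1
    have e2 := (mem_filter.1 h1').2.1
    obtain ⟨s1, s2, s3, s4, s5⟩ := s
    obtain ⟨s1', s2', s3', s4', s5'⟩ := s'
    dsimp only at h h2 h2' e1 e2
    subst h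
    rw [← h2'] at h2
    simp only [Prod.mk.injEq] at h2
    obtain ⟨rfl, rfl, rfl⟩ := h2
    have : s4 = s4' := Fin.ext (e1.trans e2.symm)
    rw [this]
  simpa using this

/-- sum over the active slots -/
theorem SA_sum (D : OD V N J) (n : Fin N) (b : ℕ) (G : Fin N × Bool × Bool → ℕ) :
    ∑ s ∈ SA D n b, G (s.1, s.2.1, s.2.2.1) ≤ D.Bq * ∑ r, G r := by
  rw [Finset.sum_comp G (fun s : KS D => (s.1, s.2.1, s.2.2.1))]
  calc ∑ r ∈ (SA D n b).image (fun s : KS D => (s.1, s.2.1, s.2.2.1)),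
        ((SA D n b).filter (fun s => (s.1, s.2.1, s.2.2.1) = r)).card • G r ≤
      ∑ r ∈ (SA D n b).image (fun s : KS D => (s.1, s.2.1, s.2.2.1)), D.Bq * G r := by
        refine Finset.sum_le_sum fun r _ => ?_
        rw [smul_eq_mul]
        exact Nat.mul_le_mul_right _ (SA_fib D n b r)
    _ ≤ ∑ r, D.Bq * G r := Finset.sum_le_sum_of_subset (Finset.subset_univ _)
    _ = D.Bq * ∑ r, G r := by rw [Finset.mul_sum]

theorem SA_card (k : Con) (c' : ℝ) (D : OD V N J) (hD : Hyp k c' D) (n : Fin N) (b : ℕ) :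
    (SA D n b).card ≤ 2 * D.d * D.d * D.Bq := by
  have h1 : ∀ r ∈ (SA D n b).image (fun s : KS D => (s.1, s.2.1, s.2.2.1)),
      ((SA D n b).filter (fun s => (s.1, s.2.1, s.2.2.1) = r)).card ≤ D.Bq :=
    fun r _ => SA_fib D n b r
  have h2 := Finset.card_eq_sum_card_image (fun s : KS D => (s.1, s.2.1, s.2.2.1)) (SA D n b)
  have h3 : ((SA D n b).image (fun s : KS D => (s.1, s.2.1, s.2.2.1))).card ≤
      ((KW D n).image (qt D)).card := by
    refine Finset.card_le_card ?_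
    intro r hr
    obtain ⟨s, hs, rfl⟩ := mem_image.1 hr
    obtain ⟨w, hw⟩ := (mem_filter.1 hs).2.2
    exact mem_image.2 ⟨w, (mem_filter.1 hw).1, (mem_filter.1 hw).2⟩
  calc (SA D n b).card ≤ ∑ _r ∈ (SA D n b).image (fun s : KS D => (s.1, s.2.1, s.2.2.1)), D.Bq := by
        rw [h2]; exact Finset.sum_le_sum h1
    _ = ((SA D n b).image (fun s : KS D => (s.1, s.2.1, s.2.2.1))).card * D.Bq := by
        rw [Finset.sum_const, smul_eq_mul]
    _ ≤ 2 * D.d * D.d * D.Bq := by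
        apply Nat.mul_le_mul_right
        exact h3.trans (Finset.card_image_le.trans (KW_card k c' D hD n))

/-- pieces which see a vertex -/
theorem num_n (k : Con) (c' : ℝ) (D : OD V N J) (hD : Hyp k c' D) (w : V) :
    ((nb D.G w).image D.X.P.pc).card ≤ D.d := by
  refine Finset.card_image_le.trans ?_
  rw [hD.pc.reg w]

theorem KW_image (D : OD V N J) {n : Fin N} {w : V} (hw : w ∈ KW D n) :
    n ∈ (nb D.G w).image D.X.P.pc := by
  obtain ⟨-, -, -, -, v, hv⟩ := mem_filter.1 hw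
  rw [mem_inter] at hv
  exact mem_image.2 ⟨v, hv.1, (mem_pV.1 hv.2).2⟩

/-- pieces which see a quarter -/
theorem num_K4 (k : Con) (c' : ℝ) (D : OD V N J) (hD : Hyp k c' D) (r : Fin N × Bool × Bool) :
    ((univ.filter (fun n : Fin N => (K4 D n r).Nonempty)).card : ℝ) ≤ max k.C 0 * D.d * D.d := by
  by_cases hne : ∃ n : Fin N, (K4 D n r).Nonempty
  · obtain ⟨n, w, hw⟩ := hne
    have hr := (mem_filter.1 hw).2
    have hB := (mem_filter.1 (mem_filter.1 hw).1).2.2.1
    obtain ⟨k0, hk0⟩ : ∃ k0, D.X.cq w = some k0 :=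
      Option.ne_none_iff_exists'.1 (hD.pc.cln w hB.1)
    have hpV : ((pV D.X.P r.1).card : ℝ) ≤ k.C * D.d := by
      refine le_trans ?_ (hD.pc.clc k0)
      have : pV D.X.P r.1 ⊆ univ.filter (fun v => D.X.cq v = some k0) := by
        intro v hv
        rw [mem_pV] at hv
        refine mem_filter.2 ⟨mem_univ _, ?_⟩
        rw [← hk0]
        refine hD.pc.clp v w hv.1 hB.1 ?_
        rw [hv.2, ← hr]
        rfl
      exact_mod_cast Finset.card_le_card this
    have h1 : (univ.filter (fun n : Fin N => (K4 D n r).Nonempty)).card ≤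
        (((pV D.X.P r.1).biUnion (fun v => nb D.G v)).image D.X.P.pc).card := by
      refine Finset.card_le_card ?_
      intro n' hn'
      obtain ⟨w', hw'⟩ := (mem_filter.1 hn').2
      have hr' := (mem_filter.1 hw').2
      have hB' := (mem_filter.1 (mem_filter.1 hw').1).2.2.1
      obtain ⟨v, hv, hvn⟩ := mem_image.1 (KW_image D (mem_filter.1 hw').1)
      refine mem_image.2 ⟨v, mem_biUnion.2 ⟨w', ?_, hv⟩, hvn⟩
      rw [mem_pV]
      refine ⟨hB'.1, ?_⟩
      rw [← hr']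
      rfl
    have h2 : (((pV D.X.P r.1).biUnion (fun v => nb D.G v)).image D.X.P.pc).card ≤
        (pV D.X.P r.1).card * D.d := by
      refine Finset.card_image_le.trans (Finset.card_biUnion_le.trans ?_)
      rw [Finset.sum_congr rfl (fun y _ => hD.pc.reg y), Finset.sum_const, smul_eq_mul]
    calc ((univ.filter (fun n : Fin N => (K4 D n r).Nonempty)).card : ℝ) ≤
        (((pV D.X.P r.1).card * D.d : ℕ) : ℝ) := by exact_mod_cast h1.trans h2
      _ = ((pV D.X.P r.1).card : ℝ) * D.d := by push_cast; rfl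
      _ ≤ max k.C 0 * D.d * D.d := by
          gcongr
          refine hpV.trans ?_
          gcongr
          exact le_max_left _ _
  · have : univ.filter (fun n : Fin N => (K4 D n r).Nonempty) = ∅ := by
      rw [Finset.eq_empty_iff_forall_notMem]
      intro n hn
      exact hne ⟨n, (mem_filter.1 hn).2⟩
    rw [this]
    simp only [Finset.card_empty, Nat.cast_zero]
    positivity

/-! ## The tests -/

/-- names of the tests -/
abbrev KT (D : OD V N J) : Type :=
  (Fin N × (Fin N × Bool × Bool) × Fin D.m0) ⊕ (Fin N × Fin (D.d + 2))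

/-- all variables of a test -/
noncomputable def S5 (D : OD V N J) : KT D → Finset D.IV
  | Sum.inl (n, r, _) => (K4 D n r).image Sum.inl
  | Sum.inr (n, b) => (KW D n).image Sum.inl ∪ (SA D n b).image Sum.inr

/-- the active variables -/
noncomputable def A5 (D : OD V N J) : KT D → Finset D.IV
  | Sum.inl (n, r, _) => (K4 D n r).image Sum.inl
  | Sum.inr (n, b) => (SA D n b).image Sum.inr

/-- the weights -/
noncomputable def w5 (D : OD V N J) (R : ℝ) : KT D → (D.IV → ℕ) → D.IV → ℝ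
  | Sum.inl (n, _, j), x, Sum.inl w => if D.tauX x w = j then (Kg D n w : ℝ) else 0
  | Sum.inl _, _, Sum.inr _ => 0
  | Sum.inr _, _, Sum.inl _ => 0
  | Sum.inr (n, _), x, Sum.inr s => min (KE D x n (s.1, s.2.1, s.2.2.1) (x (Sum.inr s)) : ℝ) R

/-- bounds of the weights -/
noncomputable def W5 (D : OD V N J) (a R : ℝ) : KT D → ℝ
  | Sum.inl _ => a * D.d
  | Sum.inr _ => R

/-- bounds of the means -/
noncomputable def μ5 (D : OD V N J) (a : ℝ) : KT D → ℝ
  | Sum.inl _ => a * (D.d : ℝ) ^ 2 / D.m0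
  | Sum.inr _ => D.Bq * (a * (D.d : ℝ) ^ 2) / D.m0

theorem tst5 (k : Con) (c' : ℝ) (D : OD V N J) (hD : Hyp k c' D) (B R : ℝ) (hR : 0 ≤ R)
    (hB1 : ((2 * D.d * D.d + 2 * D.d * D.d * D.Bq : ℕ) : ℝ) ≤ B)
    (hB2 : ((D.d * (D.m0 + (D.d + 2)) : ℕ) : ℝ) ≤ B)
    (hB3 : max k.C 0 * D.d * D.d ≤ B) :
    Tst (K := ULift.{u} (KT D)) B D.mv (fun q => S5 D q.down) (fun q => A5 D q.down)
      (fun q => w5 D R q.down) (fun q => W5 D ((D.d : ℝ) ^ (-c')) R q.down) where
  AS := by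
    rintro ⟨⟨n, r, j⟩ | ⟨n, b⟩⟩
    · exact subset_rfl
    · exact Finset.subset_union_right
  Sc := by
    rintro ⟨⟨n, r, j⟩ | ⟨n, b⟩⟩
    · refine le_trans ?_ hB1
      have h1 : ((K4 D n r).image (Sum.inl : V → D.IV)).card ≤ 2 * D.d * D.d :=
        Finset.card_image_le.trans ((Finset.card_filter_le _ _).trans (KW_card k c' D hD n))
      have h2 : ((K4 D n r).image (Sum.inl : V → D.IV)).card ≤
          2 * D.d * D.d + 2 * D.d * D.d * D.Bq := h1.trans (Nat.le_add_right _ _)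
      exact_mod_cast h2
    · refine le_trans ?_ hB1
      have h1 : ((KW D n).image (Sum.inl : V → D.IV) ∪
          (SA D n b).image (Sum.inr : KS D → D.IV)).card ≤
          2 * D.d * D.d + 2 * D.d * D.d * D.Bq := by
        refine (Finset.card_union_le _ _).trans (add_le_add ?_ ?_)
        · exact Finset.card_image_le.trans (KW_card k c' D hD n)
        · exact Finset.card_image_le.trans (SA_card k c' D hD n b)
      exact_mod_cast h1
  Kc := by
    rintro (w | s)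
    · refine le_trans ?_ hB2
      have h1 : (univ.filter (fun q : ULift.{u} (KT D) =>
          (Sum.inl w : D.IV) ∈ S5 D q.down)).card ≤
          (((nb D.G w).image D.X.P.pc) ×ˢ (univ : Finset (Fin D.m0 ⊕ Fin (D.d + 2)))).card := by
        refine Finset.card_le_card_of_injOn (fun q => match q.down with
          | Sum.inl (n, _, j) => (n, Sum.inl j)
          | Sum.inr (n, b) => (n, Sum.inr b)) ?_ ?_
        · rintro ⟨⟨n, r, j⟩ | ⟨n, b⟩⟩ hq
          · have h2 := (mem_filter.1 (mem_coe.1 hq)).2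
            obtain ⟨w', hw', e⟩ := mem_image.1 h2
            have e' : w' = w := Sum.inl.inj e
            subst e'
            exact mem_coe.2 (mem_product.2 ⟨KW_image D (mem_filter.1 hw').1, mem_univ _⟩)
          · have h2 := (mem_filter.1 (mem_coe.1 hq)).2
            rcases mem_union.1 h2 with h2 | h2
            · obtain ⟨w', hw', e⟩ := mem_image.1 h2
              have e' : w' = w := Sum.inl.inj e
              subst e'
              exact mem_coe.2 (mem_product.2 ⟨KW_image D hw', mem_univ _⟩)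
            · obtain ⟨s, -, e⟩ := mem_image.1 h2
              exact absurd e (by simp)
        · rintro ⟨⟨n, r, j⟩ | ⟨n, b⟩⟩ hq ⟨⟨n', r', j'⟩ | ⟨n', b'⟩⟩ hq' h
          · have h2 := (mem_filter.1 (mem_coe.1 hq)).2
            have h2' := (mem_filter.1 (mem_coe.1 hq')).2
            obtain ⟨w1, hw1, e1⟩ := mem_image.1 h2
            obtain ⟨w2, hw2, e2⟩ := mem_image.1 h2'
            have e1' : w1 = w := Sum.inl.inj e1
            have e2' : w2 = w := Sum.inl.inj e2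
            subst e1'
            subst e2'
            have e3 := (mem_filter.1 hw1).2
            have e4 := (mem_filter.1 hw2).2
            simp only [Prod.mk.injEq, Sum.inl.injEq] at h
            obtain ⟨rfl, rfl⟩ := h
            rw [← e3, ← e4]
          · simp at h
          · simp at h
          · simp only [Prod.mk.injEq, Sum.inr.injEq] at h
            obtain ⟨rfl, rfl⟩ := h
            rfl
      have h3 : (((nb D.G w).image D.X.P.pc) ×ˢ
          (univ : Finset (Fin D.m0 ⊕ Fin (D.d + 2)))).card ≤ D.d * (D.m0 + (D.d + 2)) := by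
        rw [Finset.card_product]
        refine Nat.mul_le_mul (num_n k c' D hD w) ?_
        simp
      have h4 : ((univ.filter (fun q : ULift.{u} (KT D) =>
          (Sum.inl w : D.IV) ∈ S5 D q.down)).card : ℝ) ≤
          ((D.d * (D.m0 + (D.d + 2)) : ℕ) : ℝ) := by exact_mod_cast h1.trans h3
      refine le_of_eq_of_le ?_ h4
      congr!
    · refine le_trans ?_ hB3
      refine le_trans ?_ (num_K4 k c' D hD (s.1, s.2.1, s.2.2.1))
      have h1 : (univ.filter (fun q : ULift.{u} (KT D) =>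
          (Sum.inr s : D.IV) ∈ S5 D q.down)).card ≤
          (univ.filter (fun n : Fin N => (K4 D n (s.1, s.2.1, s.2.2.1)).Nonempty)).card := by
        refine Finset.card_le_card_of_injOn (fun q => match q.down with
          | Sum.inl (n, _, _) => n
          | Sum.inr (n, _) => n) ?_ ?_
        · rintro ⟨⟨n, r, j⟩ | ⟨n, b⟩⟩ hq
          · have h2 := (mem_filter.1 (mem_coe.1 hq)).2
            obtain ⟨w', -, e⟩ := mem_image.1 h2
            exact absurd e (by simp)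
          · have h2 := (mem_filter.1 (mem_coe.1 hq)).2
            rcases mem_union.1 h2 with h2 | h2
            · obtain ⟨w', -, e⟩ := mem_image.1 h2
              exact absurd e (by simp)
            · obtain ⟨s', hs', e⟩ := mem_image.1 h2
              have e' : s' = s := Sum.inr.inj e
              subst e'
              exact mem_coe.2 (mem_filter.2 ⟨mem_univ _, (mem_filter.1 hs').2.2⟩)
        · rintro ⟨⟨n, r, j⟩ | ⟨n, b⟩⟩ hq ⟨⟨n', r', j'⟩ | ⟨n', b'⟩⟩ hq' h
          · obtain ⟨w', -, e⟩ := mem_image.1 (mem_filter.1 (mem_coe.1 hq)).2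
            exact absurd e (by simp)
          · obtain ⟨w', -, e⟩ := mem_image.1 (mem_filter.1 (mem_coe.1 hq)).2
            exact absurd e (by simp)
          · obtain ⟨w', -, e⟩ := mem_image.1 (mem_filter.1 (mem_coe.1 hq')).2
            exact absurd e (by simp)
          · have key : ∀ (n : Fin N) (b : Fin (D.d + 2)), (Sum.inr s : D.IV) ∈
                S5 D (Sum.inr (n, b)) → (s.2.2.2.1 : ℕ) = b := by
              intro n b h2
              rcases mem_union.1 h2 with h2 | h2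
              · obtain ⟨w', -, e⟩ := mem_image.1 h2
                exact absurd e (by simp)
              · obtain ⟨s', hs', e⟩ := mem_image.1 h2
                have e' : s' = s := Sum.inr.inj e
                subst e'
                exact (mem_filter.1 hs').2.1
            have e1 := key n b (mem_filter.1 (mem_coe.1 hq)).2
            have e2 := key n' b' (mem_filter.1 (mem_coe.1 hq')).2
            have e3 : b = b' := Fin.ext (e1.symm.trans e2)
            dsimp only at h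
            rw [h, e3]
      have h4 : ((univ.filter (fun q : ULift.{u} (KT D) =>
          (Sum.inr s : D.IV) ∈ S5 D q.down)).card : ℝ) ≤
          ((univ.filter (fun n : Fin N => (K4 D n (s.1, s.2.1, s.2.2.1)).Nonempty)).card : ℝ) := by
        exact_mod_cast h1
      refine le_of_eq_of_le ?_ h4
      congr!
  w0 := by
    rintro ⟨⟨n, r, j⟩ | ⟨n, b⟩⟩ x _ (w | s) _
    · change 0 ≤ if D.tauX x w = j then (Kg D n w : ℝ) else 0
      split_ifs
      · positivity
      · exact le_rfl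
    · exact le_rfl
    · exact le_rfl
    · exact le_min (by positivity) hR
  wW := by
    rintro ⟨⟨n, r, j⟩ | ⟨n, b⟩⟩ x _ (w | s) hi
    · change (if D.tauX x w = j then (Kg D n w : ℝ) else 0) ≤ (D.d : ℝ) ^ (-c') * D.d
      obtain ⟨w', hw', e⟩ := mem_image.1 hi
      have e' : w' = w := Sum.inl.inj e
      subst e'
      split_ifs
      · exact Kg_le k c' D hD n (mem_filter.1 hw').1
      · positivity
    · change (0 : ℝ) ≤ (D.d : ℝ) ^ (-c') * D.d
      positivity
    · exact hR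
    · exact min_le_right _ _
  W0 := by
    rintro ⟨⟨n, r, j⟩ | ⟨n, b⟩⟩
    · change (0 : ℝ) ≤ (D.d : ℝ) ^ (-c') * D.d
      positivity
    · exact hR
  dep := by
    rintro ⟨⟨n, r, j⟩ | ⟨n, b⟩⟩ (w | s) hi x y hxy hp
    · change (if D.tauX x w = j then (Kg D n w : ℝ) else 0) =
        if D.tauX y w = j then (Kg D n w : ℝ) else 0
      have : D.tauX x w = D.tauX y w := by
        unfold OD.tauX
        rw [hxy]
      rw [this]
    · rfl
    · rfl
    · change min (KE D x n (s.1, s.2.1, s.2.2.1) (x (Sum.inr s)) : ℝ) R =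
        min (KE D y n (s.1, s.2.1, s.2.2.1) (y (Sum.inr s)) : ℝ) R
      have h1 : KE D x n (s.1, s.2.1, s.2.2.1) (x (Sum.inr s)) =
          KE D y n (s.1, s.2.1, s.2.2.1) (y (Sum.inr s)) := by
        rw [hxy]
        unfold KE
        congr 1
        refine Finset.filter_congr fun w hw => ?_
        have : x (Sum.inl w) = y (Sum.inl w) := by
          refine hp _ ((@Finset.mem_sdiff _ (_) _ _ _).2 ⟨?_, ?_⟩)
          · exact mem_union_left _ (mem_image.2 ⟨w, (mem_filter.1 hw).1, rfl⟩)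
          · intro h
            obtain ⟨s', -, e⟩ := mem_image.1 h
            exact absurd e (by simp)
        unfold OD.tauX
        rw [this]
      rw [h1]

theorem cnt_mod (m d j : ℕ) (_hm : 1 ≤ m) :
    ((range (m * d)).filter (fun a => a % m = j)).card ≤ d := by
  have : ((range (m * d)).filter (fun a => a % m = j)).card ≤ (range d).card := by
    refine Finset.card_le_card_of_injOn (fun a => a / m) ?_ ?_
    · intro a ha
      have h1 := mem_range.1 (mem_filter.1 (mem_coe.1 ha)).1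
      exact mem_coe.2 (mem_range.2 (Nat.div_lt_of_lt_mul h1))
    · intro a ha b hb h
      have h1 := (mem_filter.1 (mem_coe.1 ha)).2
      have h2 := (mem_filter.1 (mem_coe.1 hb)).2
      dsimp only at h
      rw [← Nat.div_add_mod a m, ← Nat.div_add_mod b m, h, h1, h2]
  simpa using this

theorem mn_eq {I : Type u} [inst : DecidableEq I] (m : I → ℕ) (A : Finset I)
    (w : (I → ℕ) → I → ℝ) (x : I → ℕ) :
    mn m A w x = ∑ i ∈ A, (∑ a ∈ range (m i), w (Function.update x i a) i) / m i := by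
  unfold mn
  have : inst = fun a b => propDecidable (a = b) := Subsingleton.elim _ _
  subst this
  rfl

theorem mn5 (k : Con) (c' : ℝ) (D : OD V N J) (hD : Hyp k c' D) (R : ℝ)
    (hd : 1 ≤ D.d) (hm : 1 ≤ D.m0) (x : D.IV → ℕ) (t : KT D) :
    mn D.mv (A5 D t) (w5 D R t) x ≤ μ5 D ((D.d : ℝ) ^ (-c')) t := by
  have hd' : (0 : ℝ) < D.d := by exact_mod_cast hd
  have hm' : (0 : ℝ) < D.m0 := by exact_mod_cast hm
  rcases t with ⟨n, r, j⟩ | ⟨n, b⟩
  · change mn D.mv ((K4 D n r).image Sum.inl) (w5 D R (Sum.inl (n, r, j))) x ≤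
      (D.d : ℝ) ^ (-c') * (D.d : ℝ) ^ 2 / D.m0
    rw [mn_eq]
    rw [Finset.sum_image (fun a _ b _ h => Sum.inl.inj h)]
    have h1 : ∀ w ∈ K4 D n r, (∑ a ∈ range (D.mv (Sum.inl w)), w5 D R (Sum.inl (n, r, j))
        (Function.update x (Sum.inl w) a) (Sum.inl w)) / (D.mv (Sum.inl w) : ℝ) ≤
          (Kg D n w : ℝ) / D.m0 := by
      intro w _
      have e1 : D.mv (Sum.inl w) = D.m0 * D.d := rfl
      have e2 : ∀ a, w5 D R (Sum.inl (n, r, j)) (Function.update x (Sum.inl w) a) (Sum.inl w) =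
          if a % D.m0 = j then (Kg D n w : ℝ) else 0 := by
        intro a
        change (if D.tauX (Function.update x (Sum.inl w) a) w = j then (Kg D n w : ℝ) else 0) = _
        unfold OD.tauX
        rw [Function.update_self]
      rw [e1, Finset.sum_congr rfl (fun a _ => e2 a), ← Finset.sum_filter, Finset.sum_const,
        nsmul_eq_mul]
      have e3 : ((((range (D.m0 * D.d)).filter (fun a => a % D.m0 = j)).card : ℕ) : ℝ) ≤ D.d := by
        exact_mod_cast cnt_mod D.m0 D.d j hm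
      push_cast
      rw [div_le_div_iff₀ (by positivity) hm']
      calc _ ≤ (D.d : ℝ) * Kg D n w * D.m0 := by gcongr
        _ = (Kg D n w : ℝ) * (D.m0 * D.d) := by ring
    refine (Finset.sum_le_sum h1).trans ?_
    rw [← Finset.sum_div]
    apply div_le_div_of_nonneg_right _ hm'.le
    refine le_trans ?_ (Kg_sum k c' D hD n)
    have h2 : ∑ w ∈ K4 D n r, Kg D n w ≤ ∑ w ∈ KW D n, Kg D n w :=
      Finset.sum_le_sum_of_subset (Finset.filter_subset _ _)
    exact_mod_cast h2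
  · change mn D.mv ((SA D n b).image Sum.inr) (w5 D R (Sum.inr (n, b))) x ≤
      D.Bq * ((D.d : ℝ) ^ (-c') * (D.d : ℝ) ^ 2) / D.m0
    rw [mn_eq]
    rw [Finset.sum_image (fun a _ b _ h => Sum.inr.inj h)]
    have h1 : ∀ s ∈ SA D n b, (∑ a ∈ range (D.mv (Sum.inr s)), w5 D R (Sum.inr (n, b))
        (Function.update x (Sum.inr s) a) (Sum.inr s)) / (D.mv (Sum.inr s) : ℝ) ≤
          ((∑ w ∈ K4 D n (s.1, s.2.1, s.2.2.1), Kg D n w : ℕ) : ℝ) / D.m0 := by
      intro s _
      have e1 : D.mv (Sum.inr s) = D.m0 := rfl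
      have e2 : ∀ a, w5 D R (Sum.inr (n, b)) (Function.update x (Sum.inr s) a) (Sum.inr s) ≤
          (KE D x n (s.1, s.2.1, s.2.2.1) a : ℝ) := by
        intro a
        change min (KE D (Function.update x (Sum.inr s) a) n (s.1, s.2.1, s.2.2.1)
          ((Function.update x (Sum.inr s) a) (Sum.inr s)) : ℝ) R ≤ _
        refine (min_le_left _ _).trans (le_of_eq ?_)
        rw [Function.update_self]
        unfold KE
        congr 2
      rw [e1]
      apply div_le_div_of_nonneg_right _ hm'.le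
      refine (Finset.sum_le_sum fun a _ => e2 a).trans ?_
      have e3 := KE_sum D x n (s.1, s.2.1, s.2.2.1) D.m0
      exact_mod_cast e3
    refine (Finset.sum_le_sum h1).trans ?_
    rw [← Finset.sum_div]
    apply div_le_div_of_nonneg_right _ hm'.le
    have h2 := SA_sum D n b (fun r => ∑ w ∈ K4 D n r, Kg D n w)
    rw [K4_sum] at h2
    have h3 : ((∑ s ∈ SA D n b, ∑ w ∈ K4 D n (s.1, s.2.1, s.2.2.1), Kg D n w : ℕ) : ℝ) ≤
        ((D.Bq * ∑ w ∈ KW D n, Kg D n w : ℕ) : ℝ) := by exact_mod_cast h2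
    rw [Nat.cast_mul, Nat.cast_sum] at h3
    refine h3.trans ?_
    gcongr
    exact Kg_sum k c' D hD n

theorem sum_biUnion_le' {α ι : Type*} (s : Finset ι) (t : ι → Finset α) (g : α → ℕ) :
    ∑ x ∈ s.biUnion t, g x ≤ ∑ i ∈ s, ∑ x ∈ t i, g x := by
  induction s using Finset.induction_on with
  | empty => simp
  | insert a s ha ih =>
    rw [Finset.biUnion_insert, Finset.sum_insert ha]
    have := Finset.sum_union_inter (s₁ := t a) (s₂ := s.biUnion t) (f := g)
    omega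

theorem stmt_IDX5 : Stmt_IDX5.{u} := by
  intro k hk
  refine ⟨⟨fun _ => 1, fun _ _ => 1, fun _ _ _ => 1, fun _ _ _ _ => 1,
    fun _ _ _ _ _ => 1⟩, ?_, ?_⟩
  · exact ⟨fun _ _ => one_pos, fun _ _ _ _ => one_pos, fun _ _ _ _ _ _ => one_pos,
      fun _ _ _ _ _ _ _ _ => one_pos, fun _ _ _ _ _ _ _ _ _ _ => one_pos⟩
  intro J S c' hS hc hc2
  obtain ⟨d0, hd0⟩ := idx5_num k.C c' (k.X1 + 5 * KX4 k.C k.πk + 5) hc hc2
  refine ⟨d0, ?_⟩
  intro V _ N D hd hDS hD q hq
  obtain ⟨n1, n2, n3, n4, n5, n6⟩ := hd0 D.d hd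
  have hBq : D.Bq = ⌊(D.d : ℝ) ^ (c' / 4)⌋₊ + (k.X1 + 5 * KX4 k.C k.πk + 5) := by
    unfold OD.Bq
    rw [hD.X0, hD.X1, hD.K]
    omega
  rw [← hD.m0] at n4 n5 n6
  rw [← hBq] at n3 n6
  have hd10 : (10 : ℝ) ≤ D.d := by exact_mod_cast n1
  have hd1 : 1 ≤ D.d := by omega
  have hd' : (0 : ℝ) < D.d := by linarith
  have hm' : (0 : ℝ) < D.m0 := by exact_mod_cast n4
  have h40 : ∀ y : ℝ, y ≤ (D.d : ℝ) ^ 4 → y ≤ (D.d : ℝ) ^ (40 : ℝ) := by
    intro y hy
    refine hy.trans ?_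
    have e : (D.d : ℝ) ^ (40 : ℝ) = (D.d : ℝ) ^ (40 : ℕ) := by
      exact_mod_cast Real.rpow_natCast (D.d : ℝ) 40
    rw [e]
    exact pow_le_pow_right₀ (by linarith) (by norm_num)
  obtain ⟨R, hR⟩ : ∃ R : ℝ, R = (1 + 1 / 200) * ((D.d : ℝ) ^ (-c') * (D.d : ℝ) ^ 2 / D.m0) +
    (D.d : ℝ) ^ (-c') * D.d * (Real.log D.d) ^ 2 := ⟨_, rfl⟩
  have hR0 : 0 ≤ R := by rw [hR]; positivity
  rw [← hR] at n6
  refine ⟨ULift.{u} (KT D), inferInstance, fun q => S5 D q.down, fun q => A5 D q.down,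
    fun q => w5 D R q.down, fun q => μ5 D ((D.d : ℝ) ^ (-c')) q.down,
    fun q => W5 D ((D.d : ℝ) ^ (-c')) R q.down, ?_, ?_⟩
  · refine tst5 k c' D hD _ R hR0 (h40 _ ?_) (h40 _ ?_) (h40 _ ?_)
    · have e1 : 2 * D.d * D.d + 2 * D.d * D.d * D.Bq ≤ D.d ^ 4 := by
        have e2 : 2 * D.d * D.d * D.Bq ≤ 2 * D.d * D.d * D.d := Nat.mul_le_mul_left _ n3
        have e3 : 2 * D.d * D.d ≤ 2 * D.d * D.d * D.d := Nat.le_mul_of_pos_right _ (by omega)
        have e4 : 4 * (D.d * D.d * D.d) ≤ D.d * (D.d * D.d * D.d) :=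
          Nat.mul_le_mul_right _ (by omega)
        nlinarith
      exact_mod_cast e1
    · have e1 : D.d * (D.m0 + (D.d + 2)) ≤ D.d ^ 4 := by
        have e2 : D.m0 + (D.d + 2) ≤ D.d * D.d := by nlinarith
        have e3 : D.d * (D.m0 + (D.d + 2)) ≤ D.d * (D.d * D.d) := Nat.mul_le_mul_left _ e2
        have e4 : D.d * (D.d * D.d) ≤ D.d * (D.d * (D.d * D.d)) := by
          apply Nat.mul_le_mul_left
          apply Nat.mul_le_mul_left
          exact Nat.le_mul_of_pos_right _ (by omega)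
        calc _ ≤ _ := e3
          _ ≤ _ := e4
          _ = D.d ^ 4 := by ring
      exact_mod_cast e1
    · have e1 : max k.C 0 ≤ D.d := max_le n2 hd'.le
      calc max k.C 0 * D.d * D.d ≤ (D.d : ℝ) * D.d * D.d := by gcongr
        _ = (D.d : ℝ) ^ 3 := by ring
        _ ≤ (D.d : ℝ) ^ 4 := pow_le_pow_right₀ (by linarith) (by norm_num)
  · intro x hx hT
    -- the first tests
    have T1 : ∀ (n : Fin N) (r : Fin N × Bool × Bool) (j : ℕ), j < D.m0 →
        (KE D x n r j : ℝ) ≤ R := by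
      intro n r j hj
      have h1 := (hT ⟨Sum.inl (n, r, ⟨j, hj⟩)⟩).1 (mn5 k c' D hD R hd1 n4 x _)
      have h2 : ∑ i ∈ A5 D (Sum.inl (n, r, ⟨j, hj⟩)), w5 D R (Sum.inl (n, r, ⟨j, hj⟩)) x i =
          (KE D x n r j : ℝ) := by
        change ∑ i ∈ (K4 D n r).image Sum.inl, w5 D R (Sum.inl (n, r, ⟨j, hj⟩)) x i = _
        rw [Finset.sum_image (fun a _ b _ h => Sum.inl.inj h)]
        unfold KE
        rw [Finset.sum_filter]
        push_cast
        refine Finset.sum_congr rfl fun w _ => ?_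
        rfl
      rw [← h2]
      refine h1.trans (le_of_eq ?_)
      rw [hR]
      rfl
    -- the second tests
    refine ⟨fun n k0 b hn hin hb => ?_⟩
    have h1 := (hT ⟨Sum.inr (n, ⟨b, hb⟩)⟩).1 (mn5 k c' D hD R hd1 n4 x _)
    have h2 : ∑ i ∈ A5 D (Sum.inr (n, ⟨b, hb⟩)), w5 D R (Sum.inr (n, ⟨b, hb⟩)) x i =
        ((∑ s ∈ SA D n b, KE D x n (s.1, s.2.1, s.2.2.1) (x (Sum.inr s)) : ℕ) : ℝ) := by
      change ∑ i ∈ (SA D n b).image Sum.inr, w5 D R (Sum.inr (n, ⟨b, hb⟩)) x i = _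
      rw [Finset.sum_image (fun a _ b _ h => Sum.inr.inj h)]
      push_cast
      refine Finset.sum_congr rfl fun s _ => ?_
      change min (KE D x n (s.1, s.2.1, s.2.2.1) (x (Sum.inr s)) : ℝ) R = _
      exact min_eq_left (T1 _ _ _ (hx (Sum.inr s)))
    have h3 : ∑ w ∈ univ.filter (fun w => D.Pot q (D.tauX x) (D.sgX x) w b ∧
        D.X.cq w ≠ some k0), (nb D.G w ∩ pV D.X.P n).card ≤
        ∑ s ∈ SA D n b, KE D x n (s.1, s.2.1, s.2.2.1) (x (Sum.inr s)) := by
      rw [← Finset.sum_filter_ne_zero]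
      refine le_trans (Finset.sum_le_sum_of_subset (f := fun w => Kg D n w) ?_)
        (sum_biUnion_le' (SA D n b) (fun s => (K4 D n (s.1, s.2.1, s.2.2.1)).filter
          (fun w => D.tauX x w = x (Sum.inr s))) (fun w => Kg D n w))
      intro w hw
      obtain ⟨hw1, hw2⟩ := mem_filter.1 hw
      obtain ⟨-, ⟨hB, hkc, k', hk', hs⟩, hcq⟩ := mem_filter.1 hw1
      have hqB : q (D.X.P.pc w) (D.X.P.sd w) (D.X.P.pt w) b ≤ D.Bq := by
        unfold OD.Bq
        by_cases h1 : D.kc (D.X.P.pc w) (D.X.P.sd w) (D.X.P.pt w) b = 1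
        · have := hq.q1 _ _ _ _ h1
          omega
        · have := hq.q3 _ _ _ _ h1 hkc
          omega
      have hwK : w ∈ KW D n := by
        refine mem_filter.2 ⟨mem_univ _, hn, hB, ?_, Finset.card_ne_zero.1 hw2⟩
        intro v hv e
        apply hcq
        obtain ⟨v0, hv0, hk0⟩ := hin
        rw [← e, ← hk0]
        exact hD.pc.clp v v0 (mem_pV.1 hv).1 (mem_pV.1 hv0).1
          (by rw [(mem_pV.1 hv).2, (mem_pV.1 hv0).2])
      have hk'B : k' < D.Bq := lt_of_lt_of_le hk' hqB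
      refine mem_biUnion.2 ⟨(D.X.P.pc w, D.X.P.sd w, D.X.P.pt w, ⟨b, hb⟩, ⟨k', hk'B⟩), ?_, ?_⟩
      · exact mem_filter.2 ⟨mem_univ _, rfl, w, mem_filter.2 ⟨hwK, rfl⟩⟩
      · refine mem_filter.2 ⟨mem_filter.2 ⟨hwK, rfl⟩, ?_⟩
        rw [← hs]
        unfold OD.sgX
        rw [dif_pos ⟨hb, hk'B⟩]
    have h4 : ((∑ w ∈ univ.filter (fun w => D.Pot q (D.tauX x) (D.sgX x) w b ∧
        D.X.cq w ≠ some k0), (nb D.G w ∩ pV D.X.P n).card : ℕ) : ℝ) ≤
        ((∑ s ∈ SA D n b, KE D x n (s.1, s.2.1, s.2.2.1) (x (Sum.inr s)) : ℕ) : ℝ) := by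
      exact_mod_cast h3
    refine h4.trans ?_
    rw [← h2]
    refine h1.trans ?_
    refine le_trans (le_of_eq ?_) n6
    rfl

end count

end Pool.Agent.Work.MP_db9399_oc.helper68
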