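import Pool.Agent.Work.MP_db9399_oc.Interface

/-!
# MP_db9399: RSV, reserved vertices of the short pieces of type K (helper68)
-/

set_option autoImplicit false

namespace Pool.Agent.Work.MP_db9399_oc.helper68

open Finset Classical
open Pool.Agent.Work.MP_db9399_all (nb)
open Pool.Agent.Work.MP_db9399_lt (us)
open Pool.Agent.Work.MP_db9399_da hiding qV
open Pool.Agent.Work.MP_db9399_xf
open Pool.Agent.Work.MP_db9399_x4
open Pool.Agent.Work.MP_db9399_oc

universe u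

/-! ## Numbers -/

theorem rsv_num (z e c' : ℝ) (hz : 0 < z) (he : 0 < e) (hc : 0 < c') :
    ∃ d0 : ℕ, ∀ d : ℕ, d0 ≤ d → 1 ≤ d ∧
      200 * ((d : ℝ) ^ (-c') * (d : ℝ) ^ 2 / (4 / 5 * z * d)) +
        200 * ((d : ℝ) ^ (-c') * d) * (Real.log d) ^ 2 ≤ (d : ℝ) ^ (1 - c' / 2) ∧
      (d : ℝ) ^ (1 - c' / 2) ≤ e / 2 * d := by
  have hc2 : 0 < c' / 2 := by positivity
  have h1 : Filter.Tendsto (fun x : ℝ => x ^ (-(c' / 2))) Filter.atTop (nhds 0) :=
    tendsto_rpow_neg_atTop hc2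
  have h2 : Filter.Tendsto (fun x : ℝ => (Real.log x) ^ (2 : ℝ) / x ^ (c' / 2)) Filter.atTop
      (nhds 0) := (isLittleO_log_rpow_rpow_atTop 2 hc2).tendsto_div_nhds_zero
  have e1 : ∀ᶠ x : ℝ in Filter.atTop, x ^ (-(c' / 2)) < min (e / 2) (z / 500) :=
    h1.eventually (gt_mem_nhds (by positivity))
  have e2 : ∀ᶠ x : ℝ in Filter.atTop, (Real.log x) ^ (2 : ℝ) / x ^ (c' / 2) < 1 / 400 :=
    h2.eventually (gt_mem_nhds (by positivity))
  have e3 := (e1.and (e2.and (Filter.eventually_ge_atTop (1 : ℝ))))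
  obtain ⟨d0, hd0⟩ := Filter.eventually_atTop.1 (tendsto_natCast_atTop_atTop.eventually e3)
  refine ⟨d0, fun d hd => ?_⟩
  obtain ⟨a1, a2, a3⟩ := hd0 d hd
  have hd1 : 1 ≤ d := by exact_mod_cast a3
  have hx : (0 : ℝ) < (d : ℝ) := by linarith
  refine ⟨hd1, ?_, ?_⟩
  · set x : ℝ := (d : ℝ) with hxd
    have hy : 0 < x ^ (-(c' / 2)) := Real.rpow_pos_of_pos hx _
    have b1 : x ^ (-c') = x ^ (-(c' / 2)) * x ^ (-(c' / 2)) := by
      rw [← Real.rpow_add hx]; congr 1; ring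
    have b2 : x ^ (1 - c' / 2) = x * x ^ (-(c' / 2)) := by
      rw [sub_eq_add_neg, Real.rpow_add hx, Real.rpow_one]
    have b3 : x ^ (-(c' / 2)) * (Real.log x) ^ 2 ≤ 1 / 400 := by
      have : (Real.log x) ^ (2 : ℝ) / x ^ (c' / 2) = x ^ (-(c' / 2)) * (Real.log x) ^ 2 := by
        rw [Real.rpow_neg hx.le, div_eq_mul_inv, mul_comm]
        congr 1
        exact_mod_cast Real.rpow_natCast (Real.log x) 2
      rw [← this]
      exact a2.le
    have b4 : x ^ (-(c' / 2)) ≤ z / 500 := (lt_min_iff.1 a1).2.le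
    rw [b1, b2]
    set y := x ^ (-(c' / 2)) with hyd
    have c1 : y * y * x ^ 2 / (4 / 5 * z * x) = (5 / (4 * z) * y) * (x * y) := by
      field_simp
    have c2 : 5 / (4 * z) * y ≤ 1 / 400 := by
      calc 5 / (4 * z) * y ≤ 5 / (4 * z) * (z / 500) := by gcongr
        _ = 1 / 400 := by field_simp; norm_num
    rw [c1]
    have c3 : 0 ≤ x * y := by positivity
    have c4 : 200 * (y * y * x) * Real.log x ^ 2 = 200 * (y * Real.log x ^ 2) * (x * y) := by ring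
    rw [c4]
    nlinarith [mul_le_mul_of_nonneg_right c2 c3, mul_le_mul_of_nonneg_right b3 c3]
  · have b2 : (d : ℝ) ^ (1 - c' / 2) = d * (d : ℝ) ^ (-(c' / 2)) := by
      rw [sub_eq_add_neg, Real.rpow_add hx, Real.rpow_one]
    rw [b2, mul_comm]
    exact mul_le_mul_of_nonneg_right (lt_min_iff.1 a1).1.le hx.le

/-! ## Counting -/

section count
variable {V : Type u} [Fintype V] {N J : ℕ}

theorem rsv_dc (G : SimpleGraph V) (A B : Finset V) :
    ∑ y ∈ A, (nb G y ∩ B).card = ∑ v ∈ B, (nb G v ∩ A).card := by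
  have h1 : ∀ (A : Finset V) (y : V), (nb G y ∩ A).card = ∑ v ∈ A, if G.Adj y v then 1 else 0 := by
    intro A y
    rw [← Finset.card_filter]
    congr 1
    ext v
    simp only [nb, mem_inter, mem_filter, mem_univ, true_and]
    tauto
  rw [Finset.sum_congr rfl (fun y _ => h1 B y), Finset.sum_congr rfl (fun y _ => h1 A y),
    Finset.sum_comm]
  refine Finset.sum_congr rfl fun v _ => Finset.sum_congr rfl fun y _ => ?_
  simp only [G.adj_comm]

theorem mem_pV {P : Pcs V N} {n : Fin N} {v : V} : v ∈ pV P n ↔ v ∉ P.V0 ∧ P.pc v = n := by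
  simp [pV]

/-- vertices of a piece of type K with many neighbours in a piece of type B -/
theorem rsv_heavy (G : SimpleGraph V) (X : XD V N J) (d : ℕ) (θ : ℝ) (hθ : 0 < θ) (hd : 1 ≤ d)
    {n m : Fin N} (hnm : n ≠ m)
    (hths : ∑ v ∈ pV X.P m, ((nb (thin G X.P) v).card : ℝ) ≤ θ * (d : ℝ) ^ 2) :
    ((((pV X.P n).filter (fun y => Real.sqrt θ * d < ((nb G y ∩ pV X.P m).card : ℝ))).card : ℕ) : ℝ)
      ≤ Real.sqrt θ * d := by
  have hd' : (0 : ℝ) < d := by exact_mod_cast hd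
  have hs : 0 < Real.sqrt θ := Real.sqrt_pos.2 hθ
  set B := (pV X.P n).filter (fun y => Real.sqrt θ * d < ((nb G y ∩ pV X.P m).card : ℝ)) with hB
  have h1 : (B.card : ℝ) * (Real.sqrt θ * d) ≤ θ * (d : ℝ) ^ 2 := by
    calc (B.card : ℝ) * (Real.sqrt θ * d) = ∑ _y ∈ B, (Real.sqrt θ * d) := by
          rw [Finset.sum_const, nsmul_eq_mul]
      _ ≤ ∑ y ∈ B, ((nb G y ∩ pV X.P m).card : ℝ) := by
          refine Finset.sum_le_sum fun y hy => ?_
          exact (Finset.mem_filter.1 hy).2.le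
      _ = ((∑ y ∈ B, (nb G y ∩ pV X.P m).card : ℕ) : ℝ) := by push_cast; rfl
      _ = ((∑ v ∈ pV X.P m, (nb G v ∩ B).card : ℕ) : ℝ) := by rw [rsv_dc]
      _ ≤ ∑ v ∈ pV X.P m, ((nb (thin G X.P) v).card : ℝ) := by
          push_cast
          refine Finset.sum_le_sum fun v hv => ?_
          have : nb G v ∩ B ⊆ nb (thin G X.P) v := by
            intro y hy
            rw [mem_inter] at hy
            have h3 := (mem_pV.1 (Finset.mem_filter.1 hy.2).1)
            have h4 := mem_pV.1 hv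
            simp only [nb, mem_filter, mem_univ, true_and] at hy ⊢
            refine ⟨hy.1, fun hb => ?_⟩
            have : X.P.pc v = X.P.pc y := hb.2.2.2.1
            rw [h3.2, h4.2] at this
            exact hnm this.symm
          exact_mod_cast Finset.card_le_card this
      _ ≤ θ * (d : ℝ) ^ 2 := hths
  have h2 : θ * (d : ℝ) ^ 2 = (Real.sqrt θ * d) * (Real.sqrt θ * d) := by
    have := Real.mul_self_sqrt hθ.le
    nlinarith
  rw [h2] at h1
  exact le_of_mul_le_mul_right h1 (by positivity)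

/-- candidates for the reserved vertex of colour `b` in the piece `n` -/
noncomputable def RL (D : OD V N J) (n : Fin N) (b : ℕ) : Finset V :=
  (pV D.X.P n).filter (fun y => y ∉ D.X.Hv ∧ b ∉ Ft (xt D.G D.X) D.t y ∧
    (∀ w, Owd D.X w → D.G.Adj y w → D.cN w ≠ b) ∧
    ∀ m, D.X.P.ty m = Ty.B → (∃ v ∈ pV D.X.P m, D.X.cq v = D.X.cq y) →
      ((nb D.G y ∩ pV D.X.P m).card : ℝ) ≤ Real.sqrt (D.sl m).θ * D.d)

theorem owd_notMem {X : XD V N J} {n : Fin N} (hn : X.P.ty n = Ty.K) {w : V} (hw : Owd X w) :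
    w ∉ pV X.P n := by
  intro h
  rw [mem_pV] at h
  rcases hw with hw | hw
  · exact h.1 hw
  · have := hw.2
    rw [h.2, hn] at this
    exact absurd this (by decide)

theorem rsv_card (k : Con) (hk : k.Ok) (c' : ℝ) (D : OD V N J) (hD : Hyp k c' D) (hd : 1 ≤ D.d)
    (hθ0 : ∀ s, 0 < (D.S s).θ)
    (hθ : ∀ s, (D.S s).θ ≤ (k.z / (100 * (k.M + 1))) ^ 2) (n : Fin N)
    (hn : D.X.P.ty n = Ty.K) (hs : (pV D.X.P n).card < D.d) (b : ℕ) :
    4 / 5 * k.z * D.d ≤ ((RL D n b).card : ℝ) := by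
  have hd' : (0 : ℝ) < D.d := by exact_mod_cast hd
  have hz := hk.z0
  have hz1 := hk.z1
  have P := hD.pc
  -- the cluster of `n`
  have hcard : (1 - D.θk) * D.d ≤ ((pV D.X.P n).card : ℝ) := P.kL n hn
  have hθk := hD.θk1
  have hne : (pV D.X.P n).Nonempty := by
    rw [← Finset.card_pos]
    have : (0 : ℝ) < ((pV D.X.P n).card : ℝ) := by nlinarith
    exact_mod_cast this
  obtain ⟨y0, hy0⟩ := hne
  obtain ⟨k0, hk0⟩ : ∃ k0, D.X.cq y0 = some k0 :=
    Option.ne_none_iff_exists'.1 (P.cln y0 (mem_pV.1 hy0).1)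
  have hcl : ∀ y ∈ pV D.X.P n, D.X.cq y = some k0 := by
    intro y hy
    rw [← hk0]
    exact P.clp y y0 (mem_pV.1 hy).1 (mem_pV.1 hy0).1 (by rw [(mem_pV.1 hy).2, (mem_pV.1 hy0).2])
  -- the base set
  obtain ⟨A, hAn, hAz, hA⟩ : ∃ A : Finset V, A ⊆ pV D.X.P n ∧ k.z * D.d ≤ (A.card : ℝ) ∧
      ∀ y ∈ A, ∀ w, Owd D.X w → D.G.Adj y w → D.cN w = b →
        ((nb D.G w ∩ pV D.X.P n).card : ℝ) < k.τ * D.d := by
    by_cases hw0 : ∃ w, Owd D.X w ∧ D.cN w = b ∧ k.τ * D.d ≤ ((nb D.G w ∩ pV D.X.P n).card : ℝ)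
    · obtain ⟨w0, hw0, hcw, hτ⟩ := hw0
      refine ⟨pV D.X.P n \ nb D.G w0, sdiff_subset, P.kz n hn w0 (owd_notMem hn hw0), ?_⟩
      intro y hy w hw hyw hcb
      by_contra hcon
      push Not at hcon
      have hww : w = w0 := by
        by_contra hne
        exact hD.own.dif n hn w w0 hw hw0 hne hcon hτ (by rw [hcb, hcw])
      subst hww
      rw [mem_sdiff] at hy
      apply hy.2
      simp only [nb, mem_filter, mem_univ, true_and]
      exact hyw.symm
    · push Not at hw0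
      refine ⟨pV D.X.P n, subset_rfl, ?_, ?_⟩
      · nlinarith
      · intro y hy w hw hyw hcb
        exact hw0 w hw hcb
  -- the bad sets
  set B1 := pV D.X.P n ∩ D.X.Hv with hB1
  set B2 := (pV D.X.P n).filter (fun v => v ∉ D.X.Hv ∧ b ∈ Ft (xt D.G D.X) D.t v) with hB2
  set B3 := (univ.filter (fun w => Owd D.X w ∧ D.cN w = b ∧
    ((nb D.G w ∩ pV D.X.P n).card : ℝ) < k.τ * D.d)).biUnion
      (fun w => nb D.G w ∩ pV D.X.P n) with hB3
  set Mc := (univ.filter (fun m => ∃ v, v ∉ D.X.P.V0 ∧ D.X.P.pc v = m ∧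
    D.X.cq v = some k0)) with hMc
  set B4 := (Mc.filter (fun m => D.X.P.ty m = Ty.B)).biUnion (fun m => (pV D.X.P n).filter
    (fun y => Real.sqrt (D.sl m).θ * D.d < ((nb D.G y ∩ pV D.X.P m).card : ℝ))) with hB4
  have hsub : A ⊆ RL D n b ∪ (B1 ∪ (B2 ∪ (B3 ∪ B4))) := by
    intro y hy
    by_cases h1 : y ∈ D.X.Hv
    · simp only [mem_union, hB1, mem_inter]
      exact Or.inr (Or.inl ⟨hAn hy, h1⟩)
    by_cases h2 : b ∈ Ft (xt D.G D.X) D.t y
    · simp only [mem_union, hB2, mem_filter]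
      exact Or.inr (Or.inr (Or.inl ⟨hAn hy, h1, h2⟩))
    by_cases h3 : ∃ w, Owd D.X w ∧ D.G.Adj y w ∧ D.cN w = b
    · obtain ⟨w, hw, hyw, hc⟩ := h3
      have := hA y hy w hw hyw hc
      refine mem_union_right _ (mem_union_right _ (mem_union_right _ (mem_union_left _ ?_)))
      rw [hB3, mem_biUnion]
      refine ⟨w, by simp only [mem_filter, mem_univ, true_and]; exact ⟨hw, hc, this⟩, ?_⟩
      rw [mem_inter]
      exact ⟨by simp only [nb, mem_filter, mem_univ, true_and]; exact hyw.symm, hAn hy⟩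
    by_cases h4 : ∃ m, D.X.P.ty m = Ty.B ∧ (∃ v ∈ pV D.X.P m, D.X.cq v = D.X.cq y) ∧
        Real.sqrt (D.sl m).θ * D.d < ((nb D.G y ∩ pV D.X.P m).card : ℝ)
    · obtain ⟨m, hm, ⟨v, hv, hvy⟩, hlt⟩ := h4
      refine mem_union_right _ (mem_union_right _ (mem_union_right _ (mem_union_right _ ?_)))
      rw [hB4, mem_biUnion]
      refine ⟨m, ?_, ?_⟩
      · rw [hMc, mem_filter, mem_filter]
        exact ⟨⟨mem_univ _, v, (mem_pV.1 hv).1, (mem_pV.1 hv).2, by rw [hvy, hcl y (hAn hy)]⟩, hm⟩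
      · rw [mem_filter]
        exact ⟨hAn hy, hlt⟩
    · push Not at h3 h4
      refine mem_union_left _ ?_
      rw [RL, mem_filter]
      exact ⟨hAn hy, h1, h2, h3, fun m hm hv => h4 m hm (by obtain ⟨v, a, b⟩ := hv; exact ⟨v, a, b⟩)⟩
  have hle : (A.card : ℝ) ≤ ((RL D n b).card : ℝ) + (B1.card + (B2.card + (B3.card + B4.card))) := by
    have h1 := Finset.card_le_card hsub
    have h2 := Finset.card_union_le (RL D n b) (B1 ∪ (B2 ∪ (B3 ∪ B4)))
    have h3 := Finset.card_union_le B1 (B2 ∪ (B3 ∪ B4))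
    have h4 := Finset.card_union_le B2 (B3 ∪ B4)
    have h5 := Finset.card_union_le B3 B4
    have : A.card ≤ (RL D n b).card + (B1.card + (B2.card + (B3.card + B4.card))) := by omega
    exact_mod_cast this
  have hη0 : 0 ≤ D.η := by
    have := P.kh n hn
    have h1 : (0 : ℝ) < ((pV D.X.P n).card : ℝ) := by
      exact_mod_cast Finset.card_pos.2 ⟨y0, hy0⟩
    by_contra hcon
    push Not at hcon
    have h2 : D.η * ((pV D.X.P n).card : ℝ) < 0 := mul_neg_of_neg_of_pos hcon h1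
    have h3 : (0 : ℝ) ≤ ((pV D.X.P n ∩ D.X.Hv).card : ℝ) := by positivity
    linarith
  have hη := hD.η1
  have c1 : (B1.card : ℝ) ≤ k.z / 100 * D.d := by
    have h1 := P.kh n hn
    have h2 : ((pV D.X.P n).card : ℝ) ≤ D.d := by exact_mod_cast hs.le
    calc (B1.card : ℝ) ≤ D.η * (pV D.X.P n).card := h1
      _ ≤ D.η * D.d := by gcongr
      _ ≤ k.z / 100 * D.d := by gcongr
  have c2 : (B2.card : ℝ) ≤ k.z / 100 * D.d := by
    have h1 := hD.rg.lK n hn b
    calc (B2.card : ℝ) ≤ D.η * D.d := h1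
      _ ≤ k.z / 100 * D.d := by gcongr
  have c3 : (B3.card : ℝ) ≤ k.z / 8 * D.d := by
    have h1 := hD.own.non n hn b
    have h2 : B3.card ≤ ∑ w ∈ univ.filter (fun w => Owd D.X w ∧ D.cN w = b ∧
        ((nb D.G w ∩ pV D.X.P n).card : ℝ) < k.τ * D.d), (nb D.G w ∩ pV D.X.P n).card :=
      Finset.card_biUnion_le
    have h3 : k.e / 2 ≤ k.z / 8 := by have := hk.ez; linarith
    calc (B3.card : ℝ) ≤ ((∑ w ∈ univ.filter (fun w => Owd D.X w ∧ D.cN w = b ∧
        ((nb D.G w ∩ pV D.X.P n).card : ℝ) < k.τ * D.d), (nb D.G w ∩ pV D.X.P n).card : ℕ) : ℝ) := by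
          exact_mod_cast h2
      _ ≤ k.e / 2 * D.d := h1
      _ ≤ k.z / 8 * D.d := by gcongr
  have c4 : (B4.card : ℝ) ≤ k.z / 100 * D.d := by
    have h1 : B4.card ≤ ∑ m ∈ Mc.filter (fun m => D.X.P.ty m = Ty.B), ((pV D.X.P n).filter
        (fun y => Real.sqrt (D.sl m).θ * D.d < ((nb D.G y ∩ pV D.X.P m).card : ℝ))).card :=
      Finset.card_biUnion_le
    have hq : (0 : ℝ) < k.z / (100 * (k.M + 1)) := by positivity
    have h2 : ∀ m ∈ Mc.filter (fun m => D.X.P.ty m = Ty.B), ((((pV D.X.P n).filter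
        (fun y => Real.sqrt (D.sl m).θ * D.d < ((nb D.G y ∩ pV D.X.P m).card : ℝ))).card : ℕ) : ℝ) ≤
          k.z / (100 * (k.M + 1)) * D.d := by
      intro m hm
      have hmB := (mem_filter.1 hm).2
      have hnm : n ≠ m := by
        rintro rfl
        rw [hn] at hmB
        exact absurd hmB (by decide)
      have h3 := rsv_heavy D.G D.X D.d (D.sl m).θ (hθ0 _) hd hnm (P.ths m (Or.inr hmB))
      have h4 : Real.sqrt (D.sl m).θ ≤ k.z / (100 * (k.M + 1)) := by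
        rw [Real.sqrt_le_left hq.le]
        exact hθ _
      calc _ ≤ Real.sqrt (D.sl m).θ * D.d := h3
        _ ≤ _ := by gcongr
    have h5 : ((Mc.filter (fun m => D.X.P.ty m = Ty.B)).card : ℝ) ≤ k.M := by
      have h6 : (Mc.filter (fun m => D.X.P.ty m = Ty.B)).card ≤ Mc.card :=
        Finset.card_filter_le _ _
      have h7 := P.npc k0
      exact_mod_cast h6.trans h7
    calc (B4.card : ℝ) ≤ ((∑ m ∈ Mc.filter (fun m => D.X.P.ty m = Ty.B), ((pV D.X.P n).filter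
        (fun y => Real.sqrt (D.sl m).θ * D.d < ((nb D.G y ∩ pV D.X.P m).card : ℝ))).card : ℕ) : ℝ) := by
          exact_mod_cast h1
      _ ≤ ∑ _m ∈ Mc.filter (fun m => D.X.P.ty m = Ty.B), k.z / (100 * (k.M + 1)) * D.d := by
          push_cast
          exact Finset.sum_le_sum h2
      _ = (Mc.filter (fun m => D.X.P.ty m = Ty.B)).card * (k.z / (100 * (k.M + 1)) * D.d) := by
          rw [Finset.sum_const, nsmul_eq_mul]
      _ ≤ (k.M + 1) * (k.z / (100 * (k.M + 1)) * D.d) := by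
          gcongr
          linarith
      _ = k.z / 100 * D.d := by
          field_simp
  nlinarith

theorem RL_sub (D : OD V N J) (n : Fin N) (b : ℕ) : RL D n b ⊆ pV D.X.P n :=
  Finset.filter_subset _ _

/-- indices: short pieces of type K and hard colours -/
abbrev RI (D : OD V N J) (e : ℝ) : Type u :=
  {p : ULift.{u} (Fin N × Fin (D.d + 2)) // D.X.P.ty p.down.1 = Ty.K ∧
    (pV D.X.P p.down.1).card < D.d ∧ ∃ k, D.inC p.down.1 k ∧ (p.down.2 : ℕ) ∈ D.Hd e k}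

/-- piece of an index -/
def RI.n {D : OD V N J} {e : ℝ} (i : RI D e) : Fin N := i.1.down.1

/-- colour of an index -/
def RI.b {D : OD V N J} {e : ℝ} (i : RI D e) : ℕ := (i.1.down.2 : ℕ)

theorem RI.ext {D : OD V N J} {e : ℝ} {i i' : RI D e} (h1 : i.n = i'.n) (h2 : i.b = i'.b) :
    i = i' := by
  apply Subtype.ext
  apply ULift.ext
  apply Prod.ext
  · exact h1
  · exact Fin.ext h2

theorem RI.hK {D : OD V N J} {e : ℝ} (i : RI D e) : D.X.P.ty i.n = Ty.K := i.2.1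

theorem RI.hs {D : OD V N J} {e : ℝ} (i : RI D e) : (pV D.X.P i.n).card < D.d := i.2.2.1

theorem RI.hH {D : OD V N J} {e : ℝ} (i : RI D e) : ∃ k, D.inC i.n k ∧ i.b ∈ D.Hd e k := i.2.2.2

/-- the conflicts -/
def Rcf (D : OD V N J) (e : ℝ) (i : RI D e) (y : V) (i' : RI D e) (y' : V) : Prop :=
  i ≠ i' ∧ (y = y' ∨ (i.b = i'.b ∧ D.G.Adj y y'))

theorem inC_unique {D : OD V N J} {C g z θk θ' η a : ℝ} {M : ℕ}
    (P : PcX C g z θk θ' η a M D.S D.G D.d D.X) {n : Fin N} {k k' : ℕ}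
    (h : D.inC n k) (h' : D.inC n k') : k = k' := by
  obtain ⟨v, hv, hk⟩ := h
  obtain ⟨v', hv', hk'⟩ := h'
  rw [mem_pV] at hv hv'
  have := P.clp v v' hv.1 hv'.1 (by rw [hv.2, hv'.2])
  rw [hk, hk'] at this
  exact Option.some.inj this

/-- sums over the indices with a given colour -/
theorem sum_RI_le {D : OD V N J} {e : ℝ} (b : ℕ) (g : Fin N → ℕ) (Q : RI D e → Prop) :
    ∑ i ∈ univ.filter (fun i : RI D e => i.b = b ∧ Q i), g i.n ≤ ∑ n, g n := by
  rw [← Finset.sum_image (f := g) (s := univ.filter (fun i : RI D e => i.b = b ∧ Q i))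
    (g := fun i => i.n)]
  · exact Finset.sum_le_sum_of_subset (Finset.subset_univ _)
  · intro i hi i' hi' h
    have h1 := (mem_filter.1 (Finset.mem_coe.1 hi)).2.1
    have h2 := (mem_filter.1 (Finset.mem_coe.1 hi')).2.1
    exact RI.ext h (h1.trans h2.symm)

theorem rsv_conf (k : Con) (hk : k.Ok) (c' : ℝ) (D : OD V N J) (hD : Hyp k c' D) (hd : 1 ≤ D.d)
    (hH : ∀ j, ((D.Hd k.e j).card : ℝ) ≤ k.η' * D.d)
    (hL : ∀ i : RI D k.e, 4 / 5 * k.z * D.d ≤ ((RL D i.n i.b).card : ℝ))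
    (i : RI D k.e) (y : V) (hy : y ∈ RL D i.n i.b) :
    ∑ i' : RI D k.e, (((RL D i'.n i'.b).filter (fun y' => Rcf D k.e i y i' y')).card : ℝ) /
      (RL D i'.n i'.b).card ≤ 1 / 40 := by
  have hd' : (0 : ℝ) < D.d := by exact_mod_cast hd
  have hz := hk.z0
  have P := hD.pc
  have hzd : 0 < 4 / 5 * k.z * D.d := by positivity
  obtain ⟨hyn, hyH, -, -, -⟩ := mem_filter.1 hy
  rw [mem_pV] at hyn
  obtain ⟨k0, hk0, hb0⟩ := i.hH
  -- each term
  have h1 : ∀ i' : RI D k.e, (((RL D i'.n i'.b).filter (fun y' => Rcf D k.e i y i' y')).card : ℝ) /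
      (RL D i'.n i'.b).card ≤ (((if i'.n = i.n then 1 else 0) +
        (if i'.b = i.b ∧ i'.n ≠ i.n then (nb D.G y ∩ pV D.X.P i'.n).card else 0) : ℕ) : ℝ) /
          (4 / 5 * k.z * D.d) := by
    intro i'
    have h2 : ((RL D i'.n i'.b).filter (fun y' => Rcf D k.e i y i' y')).card ≤
        (if i'.n = i.n then 1 else 0) +
        (if i'.b = i.b ∧ i'.n ≠ i.n then (nb D.G y ∩ pV D.X.P i'.n).card else 0) := by
      have hs : (RL D i'.n i'.b).filter (fun y' => Rcf D k.e i y i' y') ⊆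
          (if i'.n = i.n then {y} else ∅) ∪
          (if i'.b = i.b ∧ i'.n ≠ i.n then nb D.G y ∩ pV D.X.P i'.n else ∅) := by
        intro y' hy'
        obtain ⟨hy1, hne, hy2⟩ := mem_filter.1 hy'
        have hyp := RL_sub D _ _ hy1
        rcases hy2 with rfl | ⟨hbb, hadj⟩
        · have : i'.n = i.n := by
            rw [mem_pV] at hyp
            rw [← hyp.2, ← hyn.2]
          rw [if_pos this]
          simp
        · have hnn : i'.n ≠ i.n := fun h => hne (RI.ext h.symm hbb)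
          rw [if_neg hnn, if_pos ⟨hbb.symm, hnn⟩]
          refine mem_union_right _ (mem_inter.2 ⟨?_, hyp⟩)
          simp only [nb, mem_filter, mem_univ, true_and]
          exact hadj
      refine (Finset.card_le_card hs).trans ((Finset.card_union_le _ _).trans ?_)
      split_ifs <;> simp
    have h3 : (0 : ℝ) < ((RL D i'.n i'.b).card : ℝ) := hzd.trans_le (hL i')
    have h4 : (((RL D i'.n i'.b).filter (fun y' => Rcf D k.e i y i' y')).card : ℝ) ≤
      (((if i'.n = i.n then 1 else 0) +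
        (if i'.b = i.b ∧ i'.n ≠ i.n then (nb D.G y ∩ pV D.X.P i'.n).card else 0) : ℕ) : ℝ) := by
      exact_mod_cast h2
    exact div_le_div₀ (by positivity) h4 hzd (hL i')
  -- the same piece
  have h5 : (univ.filter (fun i' : RI D k.e => i'.n = i.n)).card ≤ (D.Hd k.e k0).card := by
    refine Finset.card_le_card_of_injOn (fun i' => i'.b) ?_ ?_
    · intro i' hi'
      have := (mem_filter.1 (Finset.mem_coe.1 hi')).2
      obtain ⟨k1, hk1, hb1⟩ := i'.hH
      rw [this] at hk1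
      rw [inC_unique P hk0 hk1]
      exact hb1
    · intro i1 hi1 i2 hi2 h
      have e1 := (mem_filter.1 (Finset.mem_coe.1 hi1)).2
      have e2 := (mem_filter.1 (Finset.mem_coe.1 hi2)).2
      exact RI.ext (e1.trans e2.symm) h
  have h6 : ∑ i' : RI D k.e, (if i'.b = i.b ∧ i'.n ≠ i.n then
      (nb D.G y ∩ pV D.X.P i'.n).card else 0) ≤ (nb D.G y \ pV D.X.P i.n).card := by
    rw [← Finset.sum_filter]
    obtain ⟨g, hg⟩ : ∃ g : Fin N → ℕ, g = fun n => if n ≠ i.n then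
      (nb D.G y ∩ pV D.X.P n).card else 0 := ⟨_, rfl⟩
    have h7 := sum_RI_le (D := D) (e := k.e) i.b g (fun i' => i'.n ≠ i.n)
    have h8 : ∑ i' ∈ univ.filter (fun i' : RI D k.e => i'.b = i.b ∧ i'.n ≠ i.n),
        (nb D.G y ∩ pV D.X.P i'.n).card = ∑ i' ∈ univ.filter
          (fun i' : RI D k.e => i'.b = i.b ∧ i'.n ≠ i.n), g i'.n := by
      refine Finset.sum_congr rfl fun i' hi' => ?_
      rw [hg]
      exact (if_pos (mem_filter.1 hi').2.2).symm
    have h7' : ∑ i' ∈ univ.filter (fun i' : RI D k.e => i'.b = i.b ∧ i'.n ≠ i.n), g i'.n ≤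
        ∑ n, g n := by
      convert h7
    rw [h8]
    refine h7'.trans ?_
    rw [hg, ← Finset.sum_filter, ← Finset.card_biUnion]
    · refine Finset.card_le_card ?_
      intro v hv
      obtain ⟨m, hm, hv⟩ := mem_biUnion.1 hv
      rw [mem_inter] at hv
      rw [mem_sdiff]
      refine ⟨hv.1, fun hv2 => (mem_filter.1 hm).2 ?_⟩
      rw [← (mem_pV.1 hv.2).2, (mem_pV.1 hv2).2]
    · intro m1 _ m2 _ hne
      rw [Function.onFun, Finset.disjoint_left]
      intro v hv1 hv2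
      apply hne
      rw [← (mem_pV.1 (mem_inter.1 hv1).2).2, (mem_pV.1 (mem_inter.1 hv2).2).2]
  have h9 : ((nb D.G y \ pV D.X.P i.n).card : ℝ) ≤ k.z / 100 * D.d := by
    have hLk : Lk D.X y := ⟨⟨hyn.1, by rw [hyn.2]; exact i.hK⟩, hyH⟩
    have e1 := P.kl y hLk
    rw [hyn.2] at e1
    have e2 := P.reg y
    have e3 := Finset.card_sdiff_add_card_inter (nb D.G y) (pV D.X.P i.n)
    have e4 : ((nb D.G y \ pV D.X.P i.n).card : ℝ) + ((nb D.G y ∩ pV D.X.P i.n).card : ℝ) = D.d := by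
      rw [← e2]; exact_mod_cast e3
    have e5 := hD.θ1
    nlinarith
  calc ∑ i' : RI D k.e, (((RL D i'.n i'.b).filter (fun y' => Rcf D k.e i y i' y')).card : ℝ) /
      (RL D i'.n i'.b).card ≤ ∑ i' : RI D k.e, (((if i'.n = i.n then 1 else 0) +
        (if i'.b = i.b ∧ i'.n ≠ i.n then (nb D.G y ∩ pV D.X.P i'.n).card else 0) : ℕ) : ℝ) /
          (4 / 5 * k.z * D.d) := Finset.sum_le_sum fun i' _ => h1 i'
    _ = (((∑ i' : RI D k.e, (if i'.n = i.n then 1 else 0) : ℕ) : ℝ) +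
        ((∑ i' : RI D k.e, (if i'.b = i.b ∧ i'.n ≠ i.n then
          (nb D.G y ∩ pV D.X.P i'.n).card else 0) : ℕ) : ℝ)) / (4 / 5 * k.z * D.d) := by
        rw [← Finset.sum_div]
        congr 1
        rw [← Nat.cast_add, ← Finset.sum_add_distrib]
        push_cast
        rfl
    _ ≤ (k.η' * D.d + k.z / 100 * D.d) / (4 / 5 * k.z * D.d) := by
        apply div_le_div_of_nonneg_right _ hzd.le
        apply add_le_add
        · rw [Finset.sum_boole]
          refine le_trans ?_ (hH k0)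
          exact_mod_cast h5
        · refine le_trans ?_ h9
          exact_mod_cast h6
    _ ≤ 1 / 40 := by
        rw [div_le_iff₀ hzd]
        have := hk.η1
        nlinarith

/-- the weights of the tests -/
noncomputable def Rw (D : OD V N J) (e : ℝ) (m : Fin N) (b0 : ℕ) (i : RI D e) (y : V) : ℕ :=
  if i.b = b0 ∧ ∀ v ∈ pV D.X.P m, D.X.cq v ≠ D.X.cq y then (nb D.G y ∩ pV D.X.P m).card else 0

theorem Rw_le (k : Con) (c' : ℝ) (D : OD V N J) (hD : Hyp k c' D) (m : Fin N) (b0 : ℕ)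
    (i : RI D k.e) (y : V) (hy : y ∈ RL D i.n i.b) :
    Rw D k.e m b0 i y ≤ ⌊(D.d : ℝ) ^ (-c') * D.d⌋₊ := by
  apply Nat.le_floor
  have h0 : (0 : ℝ) ≤ (D.d : ℝ) ^ (-c') * D.d := by positivity
  unfold Rw
  split_ifs with h
  · obtain ⟨hyn, hyH, -⟩ := mem_filter.1 hy
    rw [mem_pV] at hyn
    refine le_trans ?_ (hD.pc.out y hyn.1 hyH)
    have : nb D.G y ∩ pV D.X.P m ⊆ (nb D.G y).filter (fun w => D.X.cq w ≠ D.X.cq y) := by
      intro v hv
      rw [mem_inter] at hv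
      rw [mem_filter]
      exact ⟨hv.1, h.2 v hv.2⟩
    exact_mod_cast Finset.card_le_card this
  · simpa using h0

theorem Rw_num (k : Con) (c' : ℝ) (D : OD V N J) (hD : Hyp k c' D) (i : RI D k.e) :
    (univ.filter (fun q : ULift.{u} (Fin N × Fin (D.d + 2)) =>
      ∃ y ∈ RL D i.n i.b, Rw D k.e q.down.1 q.down.2 i y ≠ 0)).card ≤ D.d * D.d := by
  have h1 : (univ.filter (fun q : ULift.{u} (Fin N × Fin (D.d + 2)) =>
      ∃ y ∈ RL D i.n i.b, Rw D k.e q.down.1 q.down.2 i y ≠ 0)).card ≤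
      (((pV D.X.P i.n).biUnion (fun y => nb D.G y)).image D.X.P.pc).card := by
    refine Finset.card_le_card_of_injOn (fun q => q.down.1) ?_ ?_
    · intro q hq
      obtain ⟨y, hy, hw⟩ := (mem_filter.1 (Finset.mem_coe.1 hq)).2
      unfold Rw at hw
      split_ifs at hw with h
      · obtain ⟨v, hv⟩ := Finset.card_ne_zero.1 hw
        rw [mem_inter] at hv
        rw [Finset.mem_coe, mem_image]
        exact ⟨v, mem_biUnion.2 ⟨y, RL_sub D _ _ hy, hv.1⟩, (mem_pV.1 hv.2).2⟩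
      · exact absurd rfl hw
    · intro q hq q' hq' h
      obtain ⟨y, hy, hw⟩ := (mem_filter.1 (Finset.mem_coe.1 hq)).2
      obtain ⟨y', hy', hw'⟩ := (mem_filter.1 (Finset.mem_coe.1 hq')).2
      unfold Rw at hw hw'
      split_ifs at hw with h1
      · split_ifs at hw' with h2
        · apply ULift.ext
          apply Prod.ext
          · exact h
          · apply Fin.ext
            rw [← h1.1, ← h2.1]
        · exact absurd rfl hw'
      · exact absurd rfl hw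
  refine h1.trans (Finset.card_image_le.trans (Finset.card_biUnion_le.trans ?_))
  calc ∑ y ∈ pV D.X.P i.n, (nb D.G y).card = ∑ _y ∈ pV D.X.P i.n, D.d :=
        Finset.sum_congr rfl fun y _ => hD.pc.reg y
    _ = (pV D.X.P i.n).card * D.d := by rw [Finset.sum_const, smul_eq_mul]
    _ ≤ D.d * D.d := Nat.mul_le_mul_right _ i.hs.le

/-- total weight of a test -/
theorem Rw_sum (k : Con) (D : OD V N J) (m : Fin N) (b0 : ℕ) :
    ∑ i : RI D k.e, ∑ y ∈ RL D i.n i.b, Rw D k.e m b0 i y ≤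
      ∑ v ∈ pV D.X.P m, ((nb D.G v).filter (fun w => D.X.cq w ≠ D.X.cq v)).card := by
  obtain ⟨f, hf⟩ : ∃ f : V → ℕ, f = fun y => if ∀ v ∈ pV D.X.P m, D.X.cq v ≠ D.X.cq y then
    (nb D.G y ∩ pV D.X.P m).card else 0 := ⟨_, rfl⟩
  obtain ⟨g, hg⟩ : ∃ g : Fin N → ℕ, g = fun n => ∑ y ∈ pV D.X.P n, f y := ⟨_, rfl⟩
  have h1 : ∑ i : RI D k.e, ∑ y ∈ RL D i.n i.b, Rw D k.e m b0 i y ≤
      ∑ i ∈ univ.filter (fun i : RI D k.e => i.b = b0 ∧ True), g i.n := by
    rw [Finset.sum_filter]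
    refine Finset.sum_le_sum fun i _ => ?_
    by_cases hb : i.b = b0
    · rw [if_pos ⟨hb, trivial⟩, hg]
      refine (Finset.sum_le_sum_of_subset (RL_sub D i.n i.b)).trans ?_
      refine Finset.sum_le_sum fun y _ => ?_
      rw [hf]
      unfold Rw
      simp only [hb, true_and]
      exact le_rfl
    · rw [if_neg (fun h => hb h.1)]
      refine (Finset.sum_eq_zero fun y _ => ?_).le
      unfold Rw
      rw [if_neg (fun h => hb h.1)]
  have h0 : ∑ i ∈ univ.filter (fun i : RI D k.e => i.b = b0 ∧ True), g i.n ≤ ∑ n, g n := by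
    convert sum_RI_le b0 g (fun _ => True)
  refine h1.trans (h0.trans ?_)
  have h2 : ∑ n, g n ≤ ∑ y, f y := by
    rw [hg]
    have h3 : ∀ n : Fin N, ∑ y ∈ pV D.X.P n, f y ≤ ∑ y ∈ univ.filter (fun y => D.X.P.pc y = n), f y := by
      intro n
      refine Finset.sum_le_sum_of_subset ?_
      intro y hy
      rw [mem_filter]
      exact ⟨mem_univ _, (mem_pV.1 hy).2⟩
    refine (Finset.sum_le_sum fun n _ => h3 n).trans ?_
    rw [Finset.sum_fiberwise]
  refine h2.trans ?_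
  have h4 : ∀ y, f y ≤ (nb D.G y ∩ (pV D.X.P m).filter (fun v => D.X.cq y ≠ D.X.cq v)).card := by
    intro y
    rw [hf]
    dsimp only
    split_ifs with h
    · refine Finset.card_le_card ?_
      intro v hv
      rw [mem_inter] at hv
      rw [mem_inter, mem_filter]
      exact ⟨hv.1, hv.2, fun e => h v hv.2 e.symm⟩
    · exact Nat.zero_le _
  refine (Finset.sum_le_sum fun y _ => h4 y).trans ?_
  have h5 : ∀ y, (nb D.G y ∩ (pV D.X.P m).filter (fun v => D.X.cq y ≠ D.X.cq v)).card =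
      ∑ v ∈ pV D.X.P m, if D.G.Adj v y ∧ D.X.cq y ≠ D.X.cq v then 1 else 0 := by
    intro y
    rw [← Finset.card_filter]
    congr 1
    ext v
    simp only [nb, mem_inter, mem_filter, mem_univ, true_and, D.G.adj_comm y v]
    tauto
  rw [Finset.sum_congr rfl (fun y _ => h5 y), Finset.sum_comm]
  refine Finset.sum_le_sum fun v _ => ?_
  rw [← Finset.card_filter]
  refine Finset.card_le_card ?_
  intro y hy
  rw [mem_filter] at hy
  simp only [nb, mem_filter, mem_univ, true_and]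
  exact hy.2

theorem Rw_mean (k : Con) (hk : k.Ok) (c' : ℝ) (D : OD V N J) (hD : Hyp k c' D) (hd : 1 ≤ D.d)
    (hL : ∀ i : RI D k.e, 4 / 5 * k.z * D.d ≤ ((RL D i.n i.b).card : ℝ)) (m : Fin N) (b0 : ℕ) :
    ∑ i : RI D k.e, (∑ y ∈ RL D i.n i.b, (Rw D k.e m b0 i y : ℝ)) / (RL D i.n i.b).card ≤
      (D.d : ℝ) ^ (-c') * (D.d : ℝ) ^ 2 / (4 / 5 * k.z * D.d) := by
  have hd' : (0 : ℝ) < D.d := by exact_mod_cast hd
  have hz := hk.z0
  have hzd : 0 < 4 / 5 * k.z * D.d := by positivity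
  calc ∑ i : RI D k.e, (∑ y ∈ RL D i.n i.b, (Rw D k.e m b0 i y : ℝ)) / (RL D i.n i.b).card ≤
      ∑ i : RI D k.e, (∑ y ∈ RL D i.n i.b, (Rw D k.e m b0 i y : ℝ)) / (4 / 5 * k.z * D.d) := by
        refine Finset.sum_le_sum fun i _ => ?_
        exact div_le_div_of_nonneg_left (Finset.sum_nonneg fun y _ => by positivity) hzd (hL i)
    _ = ((∑ i : RI D k.e, ∑ y ∈ RL D i.n i.b, Rw D k.e m b0 i y : ℕ) : ℝ) /
        (4 / 5 * k.z * D.d) := by
        rw [← Finset.sum_div]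
        push_cast
        rfl
    _ ≤ (D.d : ℝ) ^ (-c') * (D.d : ℝ) ^ 2 / (4 / 5 * k.z * D.d) := by
        apply div_le_div_of_nonneg_right _ hzd.le
        refine le_trans ?_ (hD.pc.xs m)
        exact_mod_cast Rw_sum k D m b0

/-- the reserved vertices from a choice function -/
theorem rsv_of (k : Con) (hk : k.Ok) (c' : ℝ) (D : OD V N J) (hD : Hyp k c' D)
    (hH : ∀ j, ((D.Hd k.e j).card : ℝ) ≤ k.η' * D.d)
    (hnum : (D.d : ℝ) ^ (1 - c' / 2) ≤ k.e / 2 * D.d)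
    (f : RI D k.e → V) (h1 : ∀ i, f i ∈ RL D i.n i.b) (h2 : ∀ i i', ¬ Rcf D k.e i (f i) i' (f i'))
    (h3 : ∀ (m : Fin N) (b0 : ℕ), b0 < D.d + 2 →
      ∑ i, (Rw D k.e m b0 i (f i) : ℝ) ≤ (D.d : ℝ) ^ (1 - c' / 2)) :
    ∃ (U : Finset V) (cR : V → ℕ), D.Rsv k.e k.η' c' U cR := by
  have P := hD.pc
  have hinj : Function.Injective f := by
    intro i i' h
    by_contra hne
    exact h2 i i' ⟨hne, Or.inl h⟩
  obtain ⟨cR, hcR⟩ : ∃ cR : V → ℕ, ∀ i, cR (f i) = i.b := by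
    refine ⟨fun y => if h : ∃ i, f i = y then (choose h).b else 0, fun i => ?_⟩
    have h : ∃ i', f i' = f i := ⟨i, rfl⟩
    dsimp only
    rw [dif_pos h]
    rw [hinj (choose_spec h)]
  have hpV : ∀ i, f i ∉ D.X.P.V0 ∧ D.X.P.pc (f i) = i.n := fun i => mem_pV.1 (RL_sub D _ _ (h1 i))
  have hb : ∀ i : RI D k.e, i.b < D.d + 2 := fun i => i.1.down.2.2
  have hU : ∀ y, y ∈ univ.image f ↔ ∃ i, f i = y := by
    intro y; simp
  have hsum : ∀ (m : Fin N) (b0 : ℕ) (T : Finset V), T ⊆ univ.image f →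
      (∀ y ∈ T, cR y = b0 ∧ ∀ v ∈ pV D.X.P m, D.X.cq v ≠ D.X.cq y) →
      ((∑ y ∈ T, (nb D.G y ∩ pV D.X.P m).card : ℕ) : ℝ) ≤ (D.d : ℝ) ^ (1 - c' / 2) := by
    intro m b0 T hT hT2
    by_cases hb0 : b0 < D.d + 2
    · refine le_trans ?_ (h3 m b0 hb0)
      have e1 : T = (univ.filter (fun i => f i ∈ T)).image f := by
        ext y
        rw [mem_image]
        constructor
        · intro hy
          obtain ⟨i, hi⟩ := (hU y).1 (hT hy)
          exact ⟨i, mem_filter.2 ⟨mem_univ _, by rw [hi]; exact hy⟩, hi⟩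
        · rintro ⟨i, hi, rfl⟩
          exact (mem_filter.1 hi).2
      have e2 : ∑ y ∈ T, (nb D.G y ∩ pV D.X.P m).card =
          ∑ i ∈ univ.filter (fun i => f i ∈ T), (nb D.G (f i) ∩ pV D.X.P m).card := by
        conv_lhs => rw [e1]
        rw [Finset.sum_image]
        intro i _ i' _ h
        exact hinj h
      have e3 : ∑ y ∈ T, (nb D.G y ∩ pV D.X.P m).card ≤ ∑ i, Rw D k.e m b0 i (f i) := by
        rw [e2]
        calc ∑ i ∈ univ.filter (fun i => f i ∈ T), (nb D.G (f i) ∩ pV D.X.P m).card =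
            ∑ i ∈ univ.filter (fun i => f i ∈ T), Rw D k.e m b0 i (f i) := by
              refine Finset.sum_congr rfl fun i hi => ?_
              have := hT2 (f i) (mem_filter.1 hi).2
              unfold Rw
              rw [if_pos ⟨by rw [← hcR i]; exact this.1, this.2⟩]
          _ ≤ ∑ i, Rw D k.e m b0 i (f i) := Finset.sum_le_sum_of_subset (Finset.subset_univ _)
      exact_mod_cast e3
    · have : T = ∅ := by
        rw [Finset.eq_empty_iff_forall_notMem]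
        intro y hy
        obtain ⟨i, rfl⟩ := (hU y).1 (hT hy)
        apply hb0
        rw [← (hT2 _ hy).1, hcR]
        exact hb i
      rw [this]
      simp only [Finset.sum_empty, Nat.cast_zero]
      positivity
  have hHd : ∀ i, ∀ k0, D.X.cq (f i) = some k0 → i.b ∈ D.Hd k.e k0 := by
    intro i k0 hk0
    obtain ⟨k1, ⟨v, hv, hv1⟩, hb1⟩ := i.hH
    rw [mem_pV] at hv
    have := P.clp v (f i) hv.1 (hpV i).1 (by rw [hv.2, (hpV i).2])
    rw [hv1, hk0] at this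
    rw [← Option.some.inj this]
    exact hb1
  have hinC : ∀ i : RI D k.e, ∀ k0, D.inC i.n k0 → D.X.cq (f i) = some k0 := by
    rintro i k0 ⟨v, hv, hk0⟩
    rw [mem_pV] at hv
    rw [← hk0]
    exact P.clp _ _ (hpV i).1 hv.1 (by rw [(hpV i).2, hv.2])
  have hcl : ∀ v, v ∉ D.X.P.V0 → ∃ k0, D.X.cq v = some k0 := fun v hv =>
    Option.ne_none_iff_exists'.1 (P.cln v hv)
  have Ui : ∀ y ∈ univ.image f, ∀ y' ∈ univ.image f, D.X.P.pc y = D.X.P.pc y' → cR y = cR y' →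
      y = y' := by
    intro y hy y' hy' hp hc
    obtain ⟨i, rfl⟩ := (hU y).1 hy
    obtain ⟨i', rfl⟩ := (hU y').1 hy'
    rw [hcR, hcR] at hc
    rw [(hpV i).2, (hpV i').2] at hp
    rw [RI.ext hp hc]
  refine ⟨univ.image f, cR, ⟨?_, ?_, Ui, ?_, ?_, ?_, ?_, ?_⟩, ?_, ?_, ?_, ?_⟩
  · -- UK
    intro y hy
    obtain ⟨i, rfl⟩ := (hU y).1 hy
    refine ⟨⟨⟨(hpV i).1, by rw [(hpV i).2]; exact i.hK⟩, (mem_filter.1 (h1 i)).2.1⟩, ?_⟩
    rw [(hpV i).2]
    exact i.hs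
  · -- Uc
    intro n hn
    by_cases hne : (pV D.X.P n ∩ univ.image f).Nonempty
    · obtain ⟨y, hy⟩ := hne
      obtain ⟨k0, hk0⟩ := hcl y (mem_pV.1 (mem_inter.1 hy).1).1
      refine le_trans ?_ (hH k0)
      have : (pV D.X.P n ∩ univ.image f).card ≤ (D.Hd k.e k0).card := by
        refine Finset.card_le_card_of_injOn cR ?_ ?_
        · intro y' hy'
          rw [Finset.mem_coe, mem_inter] at hy'
          obtain ⟨i, rfl⟩ := (hU y').1 hy'.2
          rw [hcR]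
          refine hHd i k0 ?_
          rw [← hk0]
          exact P.clp _ _ (hpV i).1 (mem_pV.1 (mem_inter.1 hy).1).1
            (by rw [(mem_pV.1 hy'.1).2, (mem_pV.1 (mem_inter.1 hy).1).2])
        · intro y1 hy1 y2 hy2 h
          rw [Finset.mem_coe, mem_inter] at hy1 hy2
          exact Ui y1 hy1.2 y2 hy2.2 (by rw [(mem_pV.1 hy1.1).2, (mem_pV.1 hy2.1).2]) h
      exact_mod_cast this
    · rw [Finset.not_nonempty_iff_eq_empty] at hne
      rw [hne]
      have := hk.η0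
      simp only [Finset.card_empty, Nat.cast_zero]
      positivity
  · -- Ua
    intro y hy y' hy' hadj hc
    obtain ⟨i, rfl⟩ := (hU y).1 hy
    obtain ⟨i', rfl⟩ := (hU y').1 hy'
    rw [hcR, hcR] at hc
    refine h2 i i' ⟨?_, Or.inr ⟨hc, hadj⟩⟩
    rintro rfl
    exact D.G.loopless.irrefl _ hadj
  · -- Ul
    intro y hy
    obtain ⟨i, rfl⟩ := (hU y).1 hy
    rw [hcR]
    exact hb i
  · -- Uf
    intro y hy
    obtain ⟨i, rfl⟩ := (hU y).1 hy
    rw [hcR]
    exact (mem_filter.1 (h1 i)).2.2.1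
  · -- Uo
    intro y hy w hw hadj
    obtain ⟨i, rfl⟩ := (hU y).1 hy
    rw [hcR]
    exact (mem_filter.1 (h1 i)).2.2.2.1 w hw hadj
  · -- Ub
    intro n hn hs b hb0
    refine (hsum n b _ ?_ ?_).trans hnum
    · exact Finset.filter_subset _ _
    · intro y hy
      obtain ⟨hy1, hy2, hy3⟩ := mem_filter.1 hy
      refine ⟨hy3, fun v hv he => ?_⟩
      obtain ⟨i, rfl⟩ := (hU y).1 hy1
      obtain ⟨k0, hk0⟩ := hcl v (mem_pV.1 hv).1
      have hbH := hHd i k0 (by rw [← he]; exact hk0)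
      rw [hcR] at hy3
      let i' : RI D k.e := ⟨⟨(n, ⟨i.b, hb i⟩)⟩, hn, hs, k0, ⟨v, hv, hk0⟩, hbH⟩
      have e1 : i'.n = n := rfl
      have e2 : i'.b = i.b := rfl
      refine hb0 (f i') ((hU _).2 ⟨i', rfl⟩) ?_ ?_
      · exact (hpV i').2
      · rw [hcR, e2, hy3]
  · -- hd
    intro y hy k0 hk0
    obtain ⟨i, rfl⟩ := (hU y).1 hy
    rw [hcR]
    exact hHd i k0 hk0
  · -- hc
    intro n hn hs k0 hin b hbH
    have hbl : b < D.d + 2 := by
      have := (mem_filter.1 hbH).1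
      exact mem_range.1 this
    let i' : RI D k.e := ⟨⟨(n, ⟨b, hbl⟩)⟩, hn, hs, k0, hin, hbH⟩
    exact ⟨f i', (hU _).2 ⟨i', rfl⟩, (hpV i').2, hcR i'⟩
  · -- near
    intro y hy m hm hv
    obtain ⟨i, rfl⟩ := (hU y).1 hy
    exact (mem_filter.1 (h1 i)).2.2.2.2 m hm hv
  · -- far
    rintro m k0 hm ⟨v0, hv0, hk0⟩ b
    refine hsum m b _ (Finset.filter_subset _ _) ?_
    intro y hy
    obtain ⟨-, hy2, hy3⟩ := mem_filter.1 hy
    refine ⟨hy2, fun v hv he => hy3 ?_⟩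
    rw [← he, ← hk0]
    rw [mem_pV] at hv hv0
    exact P.clp v v0 hv.1 hv0.1 (by rw [hv.2, hv0.2])

end count

theorem stmt_RSV (hRCH : Stmt_RCH.{u}) : Stmt_RSV.{u} := by
  intro k hk
  have hz := hk.z0
  refine ⟨⟨fun _ => 1, fun _ _ => 1, fun _ _ _ => 1, fun _ _ _ _ => 1,
    fun _ _ _ _ _ => (k.z / (100 * (k.M + 1))) ^ 2⟩, ?_, ?_⟩
  · exact ⟨fun _ _ => one_pos, fun _ _ _ _ => one_pos, fun _ _ _ _ _ _ => one_pos,
      fun _ _ _ _ _ _ _ _ => one_pos, fun _ _ _ _ _ _ _ _ _ _ => by positivity⟩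
  intro J S c' hS hc hc2
  obtain ⟨d1, hd1⟩ := hRCH 3 (by norm_num)
  have he : 0 < k.e := by have := hk.τ0; have := hk.τe; linarith
  obtain ⟨d2, hd2⟩ := rsv_num k.z k.e c' hz he hc
  refine ⟨max d1 d2, ?_⟩
  intro V _ N D hd hDS hD hH
  obtain ⟨hd0, hn1, hn2⟩ := hd2 D.d ((le_max_right _ _).trans hd)
  have hd' : (1 : ℝ) ≤ D.d := by exact_mod_cast hd0
  have hθ0 : ∀ s, 0 < (D.S s).θ := by
    intro s; rw [hDS]; exact (hS s).θ.1
  have hθ : ∀ s, (D.S s).θ ≤ (k.z / (100 * (k.M + 1))) ^ 2 := by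
    intro s; rw [hDS]; exact (hS s).θ.2
  have hL : ∀ i : RI D k.e, 4 / 5 * k.z * D.d ≤ ((RL D i.n i.b).card : ℝ) := fun i =>
    rsv_card k hk c' D hD hd0 hθ0 hθ i.n i.hK i.hs i.b
  have hLne : ∀ i : RI D k.e, (RL D i.n i.b).Nonempty := by
    intro i
    rw [← Finset.card_pos]
    have h1 : (0 : ℝ) < ((RL D i.n i.b).card : ℝ) := lt_of_lt_of_le (by positivity) (hL i)
    exact_mod_cast h1
  by_cases hI : Nonempty (RI D k.e)
  · obtain ⟨i0⟩ := hI
    have hV : Nonempty V := ⟨(hLne i0).choose⟩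
    have ha1 : (D.d : ℝ) ^ (-c') ≤ 1 := Real.rpow_le_one_of_one_le_of_nonpos hd' (by linarith)
    have hWle : ⌊(D.d : ℝ) ^ (-c') * D.d⌋₊ ≤ D.d := by
      apply Nat.floor_le_of_le
      nlinarith
    obtain ⟨f, hf1, hf2, hf3⟩ := hd1 (I := RI D k.e) (K := ULift.{u} (Fin N × Fin (D.d + 2)))
      (β := V) D.d (fun i => RL D i.n i.b) (Rcf D k.e)
      (fun q i y => Rw D k.e q.down.1 q.down.2 i y) (fun _ => ⌊(D.d : ℝ) ^ (-c') * D.d⌋₊)
      (fun _ => (D.d : ℝ) ^ (-c') * (D.d : ℝ) ^ 2 / (4 / 5 * k.z * D.d))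
      ((le_max_left _ _).trans hd) hLne
      (by
        rintro i y i' y' ⟨hne, h | ⟨h, h'⟩⟩
        · exact ⟨hne.symm, Or.inl h.symm⟩
        · exact ⟨hne.symm, Or.inr ⟨h.symm, h'.symm⟩⟩)
      (by rintro i y y' ⟨h, -⟩; exact h rfl)
      (fun i y hy => rsv_conf k hk c' D hD hd0 hH hL i y hy)
      (fun q i y hy => Rw_le k c' D hD _ _ i y hy)
      (fun _ => hWle.trans (by nlinarith [hd0]))
      (by
        intro i
        have h1 := Rw_num k c' D hD i
        have h2 : (((D.d * D.d : ℕ)) : ℝ) ≤ (D.d : ℝ) ^ (3 : ℝ) := by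
          have h3 : (D.d : ℝ) ^ (3 : ℝ) = (D.d : ℝ) ^ (3 : ℕ) := by
            exact_mod_cast Real.rpow_natCast (D.d : ℝ) 3
          rw [h3]
          push_cast
          nlinarith [mul_nonneg (by positivity : (0 : ℝ) ≤ D.d * D.d) (sub_nonneg.2 hd')]
        refine le_trans ?_ h2
        exact_mod_cast h1)
      (fun q => Rw_mean k hk c' D hD hd0 hL _ _)
    refine rsv_of k hk c' D hD hH hn2 f hf1 hf2 ?_
    intro m b0 hb0
    have h1 := hf3 ⟨(m, ⟨b0, hb0⟩)⟩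
    refine h1.trans (le_trans ?_ hn1)
    have h2 : ((⌊(D.d : ℝ) ^ (-c') * D.d⌋₊ : ℕ) : ℝ) ≤ (D.d : ℝ) ^ (-c') * D.d :=
      Nat.floor_le (by positivity)
    gcongr
  · refine rsv_of k hk c' D hD hH hn2 (fun i => (hI ⟨i⟩).elim) (fun i => (hI ⟨i⟩).elim)
      (fun i => (hI ⟨i⟩).elim) ?_
    intro m b0 hb0
    have : IsEmpty (RI D k.e) := not_nonempty_iff.1 hI
    rw [Finset.univ_eq_empty, Finset.sum_empty]
    positivity

end Pool.Agent.Work.MP_db9399_oc.helper68
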